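import Pool.Agent.H3.LU.Chain

/-!
Project LU, part C: definitions. Finite sets with an action of a right-angled Coxeter group, the
cubical chain complexes, their homology, chains of normal subgroups.
-/

set_option autoImplicit false

open scoped BigOperators Topology
open Filter Pool.H3.L2

noncomputable section

namespace Pool.LU

/-- `σ` is a clique of the graph `adj` -/
def Clq {V : Type} (adj : V → V → Prop) (σ : Finset V) : Prop :=
  ∀ u ∈ σ, ∀ v ∈ σ, u ≠ v → adj u v

/-- the set of the neighbours of `v` -/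
def Lk {V : Type} (adj : V → V → Prop) (v : V) : Set V := {u | u ≠ v ∧ adj u v}

/-- the sign of the position of `v` with respect to `τ` -/
def sg {V : Type} (o : V → ℕ) (v : V) (τ : Finset V) : ℤ :=
  (-1) ^ (τ.filter (fun u => o u < o v)).card

section bd

variable (F : Type) [CommRing F] {V : Type} [Fintype V] [DecidableEq V] (o : V → ℕ) (X : Type)

/-- The boundary operator: `(bd x)(τ) = ∑_{v ∉ τ} ± x(τ ∪ v)`. -/
def bd : (Finset V → X → F) →ₗ[F] (Finset V → X → F) where
  toFun x := fun τ y => ∑ v ∈ Finset.univ \ τ, (sg o v τ : F) * x (insert v τ) y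
  map_add' x x' := by
    funext τ y
    simp only [Pi.add_apply, mul_add, Finset.sum_add_distrib]
  map_smul' c x := by
    funext τ y
    simp only [Pi.smul_apply, smul_eq_mul, RingHom.id_apply, Finset.mul_sum]
    exact Finset.sum_congr rfl fun v _ => by ring

theorem bd_apply (x : Finset V → X → F) (τ : Finset V) (y : X) :
    bd F o X x τ y = ∑ v ∈ Finset.univ \ τ, (sg o v τ : F) * x (insert v τ) y := rfl

/-- The chains of degree `k` of the full subcomplex on `A`: supported on cliques of cardinality `k`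
contained in `A`, antisymmetric under the generators in the clique. -/
def Ch {X : Type} (adj : V → V → Prop) (ρ : V → X → X) (A : Set V) (k : ℕ) :
    Submodule F (Finset V → X → F) where
  carrier := {x | (∀ σ, x σ ≠ 0 → σ.card = k ∧ (∀ v ∈ σ, v ∈ A) ∧ Clq adj σ) ∧
    ∀ σ, ∀ v ∈ σ, ∀ y, x σ (ρ v y) = - x σ y}
  add_mem' := by
    rintro x x' ⟨h1, h2⟩ ⟨h1', h2'⟩
    refine ⟨fun σ hσ => ?_, fun σ v hv y => ?_⟩
    · by_cases h : x σ = 0
      · refine h1' σ fun h' => hσ ?_
        rw [Pi.add_apply, h, h', add_zero]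
      · exact h1 σ h
    · simp only [Pi.add_apply, h2 σ v hv y, h2' σ v hv y]
      ring
  zero_mem' := ⟨fun σ hσ => absurd rfl hσ, fun σ v hv y => by simp⟩
  smul_mem' := by
    rintro c x ⟨h1, h2⟩
    refine ⟨fun σ hσ => h1 σ fun h => hσ ?_, fun σ v hv y => ?_⟩
    · rw [Pi.smul_apply, h, smul_zero]
    · simp only [Pi.smul_apply, h2 σ v hv y, smul_eq_mul]
      ring

end bd

/-- A finite set with involutions `ρ v`, commuting for adjacent vertices, and signs `χ v` such that
`χ v` is changed exactly by `ρ v`. -/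
structure XSet (V : Type) (adj : V → V → Prop) where
  X : Type
  [fin : Fintype X]
  ρ : V → X → X
  χ : V → X → ℤˣ
  ρρ : ∀ v x, ρ v (ρ v x) = x
  comm : ∀ u v, adj u v → ∀ x, ρ u (ρ v x) = ρ v (ρ u x)
  χ_self : ∀ v x, χ v (ρ v x) = - χ v x
  χ_ne : ∀ u v, u ≠ v → ∀ x, χ u (ρ v x) = χ u x

attribute [instance] XSet.fin

/-- The dimension of the homology in degree `k` of the complex of the full subcomplex on `A`. -/
def hh (F : Type) [Field F] {V : Type} [Fintype V] [DecidableEq V] {adj : V → V → Prop}
    (o : V → ℕ) (X : XSet V adj) (A : Set V) (k : ℕ) : ℕ :=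
  Module.finrank F ↥(Ch F adj X.ρ A k ⊓ LinearMap.ker (bd F o X.X)) -
    Module.finrank F ↥((Ch F adj X.ρ A (k + 1)).map (bd F o X.X))

/-- The functions which are invariant under `ρ u ρ v`. -/
def Fix (F : Type) [Field F] {V : Type} {adj : V → V → Prop} (X : XSet V adj) (u v : V) :
    Submodule F (X.X → F) where
  carrier := {f | ∀ y, f (X.ρ u (X.ρ v y)) = f y}
  add_mem' := by
    intro f g hf hg y
    simp only [Pi.add_apply, hf y, hg y]
  zero_mem' := fun y => rfl
  smul_mem' := by
    intro c f hf y
    simp only [Pi.smul_apply, hf y]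

/-- The dimension of the space of the functions which are invariant under `ρ u ρ v`. -/
def fx (F : Type) [Field F] {V : Type} {adj : V → V → Prop} (X : XSet V adj) (u v : V) : ℕ :=
  Module.finrank F ↥(Fix F X u v)

section cosets

variable {V : Type} [DecidableEq V] {adj : V → V → Prop} {W : Type} [Group W]

/-- The set `N \ W` of right cosets, for a subgroup `N` of finite index in the kernel of `χ`. -/
def cosX (R : RA V adj W) (N : Subgroup W) (h1 : N ≤ R.χ.ker) (h2 : N.FiniteIndex) :
    XSet V adj where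
  X := Quotient (QuotientGroup.rightRel N)
  fin :=
    haveI : Finite (Quotient (QuotientGroup.rightRel N)) :=
      Finite.of_equiv (W ⧸ N) (QuotientGroup.quotientRightRelEquivQuotientLeftRel N).symm
    Fintype.ofFinite _
  ρ v := Quotient.map (fun w => w * R.s v) (by
    intro a b hab
    have hab' : b * a⁻¹ ∈ N := QuotientGroup.rightRel_apply.1 hab
    refine QuotientGroup.rightRel_apply.2 ?_
    have : b * R.s v * (a * R.s v)⁻¹ = b * a⁻¹ := by group
    rw [this]
    exact hab')
  χ v := Quotient.lift (fun w => R.χ w v) (by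
    intro a b hab
    have hab' : b * a⁻¹ ∈ N := QuotientGroup.rightRel_apply.1 hab
    have h3 : R.χ (b * a⁻¹) = 1 := h1 hab'
    rw [map_mul, map_inv, mul_inv_eq_one] at h3
    show R.χ a v = R.χ b v
    rw [h3])
  ρρ v := by
    rintro ⟨w⟩
    show Quotient.mk _ (w * R.s v * R.s v) = Quotient.mk _ w
    rw [mul_assoc, R.s_sq, mul_one]
  comm u v h := by
    rintro ⟨w⟩
    show Quotient.mk _ (w * R.s v * R.s u) = Quotient.mk _ (w * R.s u * R.s v)
    rw [mul_assoc, mul_assoc, R.s_comm u v h]
  χ_self v := by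
    rintro ⟨w⟩
    show R.χ (w * R.s v) v = - R.χ w v
    rw [map_mul, R.χ_s, Pi.mul_apply, Pi.mulSingle_eq_same, mul_neg, mul_one]
  χ_ne u v h := by
    rintro ⟨w⟩
    show R.χ (w * R.s v) u = R.χ w u
    rw [map_mul, R.χ_s, Pi.mul_apply, Pi.mulSingle_eq_of_ne h, mul_one]

/-- A decreasing chain of normal subgroups of finite index of `W` in the kernel of `χ`, with trivial
intersection. -/
structure NChain (R : RA V adj W) where
  N : ℕ → Subgroup W
  normal : ∀ i, (N i).Normal
  fin : ∀ i, (N i).FiniteIndex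
  anti : Antitone N
  inf : ⨅ i, N i = ⊥
  le : ∀ i, N i ≤ R.χ.ker

/-- The finite set with action given by the member number `i` of the chain. -/
def NChain.X {R : RA V adj W} (c : NChain R) (i : ℕ) : XSet V adj :=
  cosX R (c.N i) (c.le i) (c.fin i)

end cosets

/-- The vanishing of the growth of homology above the middle degree, for all full subcomplexes of
the nerve of a simple polytope of dimension `n`. -/
def Van (p : ℕ) [Fact p.Prime] (n : ℕ) : Prop :=
  ∀ (V : Type) [Fintype V] [DecidableEq V] (P : SPoly n V) (W : Type) [Group W]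
    (R : RA V P.adj W), P.Good → ∀ o : V → ℕ, Function.Injective o → ∀ (c : NChain R) (A : Set V)
    (k : ℕ), n < 2 * k → Tendsto (fun i => (hh (ZMod p) o (c.X i) A k : ℝ) / ((c.N i).index : ℝ))
      atTop (𝓝 0)

/-- The data of part A: a simple polytope `P` of dimension `2m+1` with flag nerve such that the
nerve contains as a full subcomplex the join of the octahedralisation of a flag complex `L` (with
vertex set `VL` and graph `adjL`) and of `R` copies of three points; `L` has no cliques with four
elements and a nonzero cycle of degree 3 (triangles) modulo 3. -/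
structure PartA : Type 1 where
  m : ℕ
  V : Type
  [fV : Fintype V]
  [dV : DecidableEq V]
  P : SPoly (2 * m + 1) V
  good : P.Good
  VL : Type
  [fVL : Fintype VL]
  [dVL : DecidableEq VL]
  adjL : VL → VL → Prop
  symm : ∀ x y, adjL x y → adjL y x
  irrefl : ∀ x, ¬ adjL x x
  oL : VL → ℕ
  oL_inj : Function.Injective oL
  z : Finset VL → Unit → ZMod 3
  z_ne : z ≠ 0
  z_supp : ∀ σ, z σ ≠ 0 → σ.card = 3 ∧ Clq adjL σ
  z_cyc : bd (ZMod 3) oL Unit z = 0
  dim : ∀ σ : Finset VL, Clq adjL σ → σ.card ≤ 3
  r : ℕ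
  hr : 3 + r = m + 1
  j : VL × Bool → V
  c : Fin r → Fin 3 → V
  j_inj : Function.Injective j
  c_inj : ∀ i i' e e', c i e = c i' e' → i = i' ∧ e = e'
  j_ne_c : ∀ x i e, j x ≠ c i e
  adj_jj : ∀ x y a b, P.adj (j (x, a)) (j (y, b)) ↔ adjL x y
  adj_jc : ∀ x i e, P.adj (j x) (c i e)
  adj_cc : ∀ i i' e e', P.adj (c i e) (c i' e') ↔ i ≠ i'

attribute [instance] PartA.fV PartA.dV PartA.fVL PartA.dVL

end Pool.LU
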