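import Pool.Agent.H99.LU.CDefs

/-!
Project LU, part C: statements of the modules.
-/

set_option autoImplicit false
set_option linter.unusedVariables false

open scoped BigOperators Topology
open Filter Pool.H3.L2

noncomputable section

namespace Pool.LU

/-! ### complexes of finite sets with action -/

/-- CHB: basic facts about the boundary operator (over any commutative ring and any set `X`) -/
def CHBStmt : Prop := ∀ (F : Type) [CommRing F] (V : Type) [Fintype V] [DecidableEq V]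
  (adj : V → V → Prop) (o : V → ℕ), Function.Injective o → ∀ (X : Type) (ρ : V → X → X),
  (∀ x, bd F o X (bd F o X x) = 0) ∧
  ∀ A k, (Ch F adj ρ A (k + 1)).map (bd F o X) ≤ Ch F adj ρ A k

/-- LES: dimensions in a short exact sequence of complexes. `S k`, `T k`: the chain groups of a
complex and of a subcomplex, `U k`: the quotient complex, `f` the projection. -/
def LESStmt : Prop := ∀ (F : Type) [Field F] (X Y : Type) [AddCommGroup X] [Module F X]
  [FiniteDimensional F X] [AddCommGroup Y] [Module F Y] [FiniteDimensional F Y]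
  (d : X →ₗ[F] X) (e : Y →ₗ[F] Y) (f : X →ₗ[F] Y) (S T : ℕ → Submodule F X)
  (U : ℕ → Submodule F Y), (∀ x, d (d x) = 0) → (∀ y, e (e y) = 0) →
  (∀ x, e (f x) = - f (d x)) → (∀ k, (S (k + 1)).map d ≤ S k) → (∀ k, (T (k + 1)).map d ≤ T k) →
  (∀ k, (U (k + 1)).map e ≤ U k) → (∀ k, T k ≤ S k) → (∀ k, S k ⊓ LinearMap.ker f = T k) →
  (∀ k, (S (k + 1)).map f = U k) → (∀ x ∈ S 0, d x = 0) → (∀ x ∈ T 0, d x = 0) →
  (∀ y ∈ U 0, e y = 0) → S 0 = T 0 →
  let h : (Z : Type) → [AddCommGroup Z] → [Module F Z] → (Z →ₗ[F] Z) → (ℕ → Submodule F Z) →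
    ℕ → ℕ := fun Z _ _ g G k =>
      Module.finrank F ↥(G k ⊓ LinearMap.ker g) - Module.finrank F ↥((G (k + 1)).map g)
  ∀ k, h X d S 0 ≤ h X d T 0 ∧ h X d S (k + 1) ≤ h X d T (k + 1) + h Y e U k ∧
    h X d T k ≤ h X d S k + h Y e U k ∧ h Y e U k ≤ h X d S (k + 1) + h X d T k

/-- SEQ: adding a vertex to a full subcomplex -/
def SEQStmt : Prop := ∀ (F : Type) [Field F], (2 : F) ≠ 0 → ∀ (V : Type) [Fintype V]
  [DecidableEq V] (adj : V → V → Prop), (∀ u v, adj u v → adj v u) → ∀ (X : XSet V adj)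
  (o : V → ℕ), Function.Injective o → ∀ (A : Set V) (v : V), v ∉ A → ∀ k,
  hh F o X (insert v A) 0 ≤ hh F o X A 0 ∧
  hh F o X (insert v A) (k + 1) ≤ hh F o X A (k + 1) + hh F o X (A ∩ Lk adj v) k ∧
  hh F o X A k ≤ hh F o X (insert v A) k + hh F o X (A ∩ Lk adj v) k ∧
  hh F o X (A ∩ Lk adj v) k ≤ 2 * hh F o X (insert v A) (k + 1) + 2 * hh F o X A k

/-- EIG: the eigenspaces: for a clique `σ`, the space of functions which are antisymmetric under
`σ` has dimension `|X| / 2^|σ|` -/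
def EIGStmt : Prop := ∀ (F : Type) [Field F], (2 : F) ≠ 0 → ∀ (V : Type) [Fintype V]
  [DecidableEq V] (adj : V → V → Prop), (∀ u v, adj u v → adj v u) → ∀ (X : XSet V adj)
  (σ : Finset V), Clq adj σ → ∃ M : Submodule F (X.X → F),
  (∀ f, f ∈ M ↔ ∀ v ∈ σ, ∀ y, f (X.ρ v y) = - f y) ∧
  2 ^ σ.card * Module.finrank F ↥M = Fintype.card X.X

/-- SUS: the suspension has small homology -/
def SUSStmt : Prop := ∀ (F : Type) [Field F], (2 : F) ≠ 0 → ∀ (V : Type) [Fintype V]
  [DecidableEq V] (adj : V → V → Prop), (∀ u v, adj u v → adj v u) → ∀ (X : XSet V adj)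
  (o : V → ℕ), Function.Injective o → ∀ (B : Set V) (a b : V), a ≠ b → ¬ adj a b → a ∉ B →
  b ∉ B → (∀ u ∈ B, adj u a ∧ adj u b) → ∀ k,
  hh F o X (insert a (insert b B)) k ≤ 2 ^ (Fintype.card V + 1) * fx F X a b

/-- OCT: the homology of the octahedralisation in the top degree -/
def OCTStmt : Prop := ∀ (F : Type) [Field F], (2 : F) ≠ 0 → ∀ (V : Type) [Fintype V]
  [DecidableEq V] (adj : V → V → Prop), (∀ u v, adj u v → adj v u) → ∀ (X : XSet V adj)
  (o : V → ℕ), Function.Injective o → ∀ (VL : Type) [Fintype VL] [DecidableEq VL]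
  (adjL : VL → VL → Prop), (∀ x y, adjL x y → adjL y x) → (∀ x, ¬ adjL x x) → ∀ (oL : VL → ℕ),
  Function.Injective oL → ∀ j : VL × Bool → V, Function.Injective j →
  (∀ x y a b, adj (j (x, a)) (j (y, b)) ↔ adjL x y) →
  (∀ x y a b, x ≠ y → (o (j (x, a)) < o (j (y, b)) ↔ oL x < oL y)) → ∀ d : ℕ,
  (∀ σ : Finset VL, Clq adjL σ → σ.card ≤ d + 1) → ∀ z : Finset VL → Unit → F, z ≠ 0 →
  (∀ σ, z σ ≠ 0 → σ.card = d + 1 ∧ Clq adjL σ) → bd F oL Unit z = 0 →
  Fintype.card X.X ≤ hh F o X (Set.range j) (d + 1) +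
    2 ^ (Fintype.card VL + 1) * ∑ x : VL, fx F X (j (x, true)) (j (x, false))

/-! ### right-angled Coxeter groups -/

/-- RAX: existence of the right-angled Coxeter group of a graph -/
def RAXStmt : Prop := ∀ (V : Type) [Fintype V] [DecidableEq V] (adj : V → V → Prop),
  (∀ u v, adj u v → adj v u) → (∀ v, ¬ adj v v) →
  ∃ (W : Type) (iW : Group W), Nonempty (RA V adj W)

/-- UNI: the universal property -/
def UNIStmt : Prop := ∀ (V : Type) [Fintype V] [DecidableEq V] (adj : V → V → Prop),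
  (∀ u v, adj u v → adj v u) → ∀ (W : Type) [Group W] (R : RA V adj W) (G : Type) [Group G]
  (t : V → G), (∀ v, t v * t v = 1) → (∀ u v, adj u v → t u * t v = t v * t u) →
  ∃ f : W →* G, ∀ v, f (R.s v) = t v

/-- RSD: there is a chain of normal subgroups -/
def RSDStmt : Prop := ∀ (V : Type) [Fintype V] [DecidableEq V] (adj : V → V → Prop),
  (∀ u v, adj u v → adj v u) → ∀ (W : Type) [Group W] (R : RA V adj W), Nonempty (NChain R)

/-- SPC: special subgroups are right-angled Coxeter groups -/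
def SPCStmt : Prop := ∀ (V : Type) [Fintype V] [DecidableEq V] (adj : V → V → Prop),
  (∀ u v, adj u v → adj v u) → ∀ (W : Type) [Group W] (R : RA V adj W) (B : Set V),
  ∃ R' : RA {u // u ∈ B} (fun a b => adj a.1 b.1) (Subgroup.closure (R.s '' B)),
  (∀ u, ((R'.s u : Subgroup.closure (R.s '' B)) : W) = R.s u.1) ∧
  ∀ w u, R'.χ w u = R.χ w.1 u.1

/-- FXS: `s u s v` has infinite order for different vertices which are not adjacent, so it has few
invariant functions on `N i \ W` -/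
def FXSStmt : Prop := ∀ (V : Type) [Fintype V] [DecidableEq V] (adj : V → V → Prop),
  (∀ u v, adj u v → adj v u) → ∀ (W : Type) [Group W] (R : RA V adj W) (c : NChain R)
  (F : Type) [Field F] (u v : V), u ≠ v → ¬ adj u v →
  Tendsto (fun i => (fx F (c.X i) u v : ℝ) / ((c.N i).index : ℝ)) atTop (𝓝 0)

/-- INF: the kernel of `χ` is infinite if there are two vertices which are not adjacent -/
def INFStmt : Prop := ∀ (V : Type) [Fintype V] [DecidableEq V] (adj : V → V → Prop),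
  (∀ u v, adj u v → adj v u) → ∀ (W : Type) [Group W] (R : RA V adj W) (u v : V), u ≠ v →
  ¬ adj u v → Infinite R.χ.ker

/-- IDX: the number of elements of `N \ W`, and the index of `N` in the kernel of `χ` -/
def IDXStmt : Prop := ∀ (V : Type) [Fintype V] [DecidableEq V] (adj : V → V → Prop),
  (∀ u v, adj u v → adj v u) → ∀ (W : Type) [Group W] (R : RA V adj W),
  R.χ.ker.FiniteIndex ∧ (∀ N : Subgroup R.χ.ker, N.FiniteIndex →
    (N.map R.χ.ker.subtype).FiniteIndex ∧ N.map R.χ.ker.subtype ≤ R.χ.ker) ∧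
  ∀ (N : Subgroup W) (h1 : N ≤ R.χ.ker) (h2 : N.FiniteIndex),
    Fintype.card (cosX R N h1 h2).X = N.index ∧
    N.index = 2 ^ Fintype.card V * (N.subgroupOf R.χ.ker).index

/-- RES: the cubical resolution -/
def RESStmt : Prop := ∀ (V : Type) [Fintype V] [DecidableEq V] (adj : V → V → Prop),
  (∀ u v, adj u v → adj v u) → (∀ v, ¬ adj v v) → ∀ (W : Type) [Group W] (R : RA V adj W)
  (o : V → ℕ), Function.Injective o → ∃ C : BCx (GR R.χ.ker), C.IsRes ∧
  ∀ (N : Subgroup R.χ.ker) [N.Normal] [N.FiniteIndex] (h1 : N.map R.χ.ker.subtype ≤ R.χ.ker)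
    (h2 : (N.map R.χ.ker.subtype).FiniteIndex) (F : Type) [Field F] (k : ℕ),
    (C.cover N).betti F k = hh F o (cosX R (N.map R.χ.ker.subtype) h1 h2) Set.univ k

/-- DEC: restriction to a special subgroup -/
def DECStmt : Prop := ∀ (V : Type) [Fintype V] [DecidableEq V] (adj : V → V → Prop),
  (∀ u v, adj u v → adj v u) → ∀ (W : Type) [Group W] (R : RA V adj W) (B : Set V)
  (R' : RA {u // u ∈ B} (fun a b => adj a.1 b.1) (Subgroup.closure (R.s '' B))),
  (∀ u, ((R'.s u : Subgroup.closure (R.s '' B)) : W) = R.s u.1) →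
  (∀ w u, R'.χ w u = R.χ w.1 u.1) → ∀ c : NChain R, ∃ c' : NChain R',
  ∀ (F : Type) [Field F] (o : V → ℕ) (A : Set V), Function.Injective o → A ⊆ B → ∀ (k i : ℕ),
    letI : Fintype {u // u ∈ B} := Fintype.ofFinite _
    hh F o (c.X i) A k * (c'.N i).index =
      hh F (fun u : {u // u ∈ B} => o u.1) (c'.X i) (Subtype.val ⁻¹' A) k * (c.N i).index

/-! ### polytopes -/

/-- FCT: facets of simple polytopes -/
def FCTStmt : Prop := ∀ (n : ℕ) (V : Type) [Fintype V] (P : SPoly (n + 1) V), P.Good → ∀ v : V,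
  ∃ P' : SPoly n {u // u ∈ Lk P.adj v}, P'.Good ∧ P'.adj = fun a b => P.adj a.1 b.1

/-- DIM: cliques are small, and not all vertices are adjacent -/
def DIMStmt : Prop := ∀ (n : ℕ) (V : Type) [Fintype V] (P : SPoly n V), P.Good →
  (∀ σ : Finset V, Clq P.adj σ → σ.card ≤ n) ∧ (0 < n → ∃ u v, u ≠ v ∧ ¬ P.adj u v) ∧
  (n = 0 → IsEmpty V)

/-- DUA: Poincare duality -/
def DUAStmt : Prop := ∀ (n : ℕ) (V : Type) [Fintype V] [DecidableEq V] (P : SPoly n V), P.Good →
  ∀ (X : XSet V P.adj) (F : Type) [Field F], (2 : F) ≠ 0 → ∀ o : V → ℕ, Function.Injective o →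
  ∀ a b, a + b = n → hh F o X Set.univ a = hh F o X Set.univ b

end Pool.LU
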