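import Pool.Agent.H99.LU.CAsm

/-!
Project LU, part C: the contradiction with part A.
-/

set_option autoImplicit false

open scoped BigOperators Topology
open Filter Pool.H3.L2

noncomputable section

namespace Pool.LU

namespace PartA

variable (a : PartA)

open Classical in
/-- the order of the vertices -/
def o (v : a.V) : ℕ :=
  if h : ∃ x : a.VL × Bool, a.j x = v then
    2 * a.oL h.choose.1 + (if h.choose.2 then 1 else 0)
  else 2 * (Finset.univ.sup a.oL + 1) + (Fintype.equivFin a.V v : ℕ)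

theorem o_j (x : a.VL × Bool) : a.o (a.j x) = 2 * a.oL x.1 + (if x.2 then 1 else 0) := by
  have h : ∃ y : a.VL × Bool, a.j y = a.j x := ⟨x, rfl⟩
  have h1 : a.o (a.j x) = 2 * a.oL h.choose.1 + (if h.choose.2 then 1 else 0) := by
    unfold o
    rw [dif_pos h]
  have h2 : h.choose = x := a.j_inj h.choose_spec
  rw [h1, h2]

theorem o_n (v : a.V) (h : ¬ ∃ x : a.VL × Bool, a.j x = v) :
    a.o v = 2 * (Finset.univ.sup a.oL + 1) + (Fintype.equivFin a.V v : ℕ) := by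
  unfold o
  rw [dif_neg h]

theorem o_lt (x : a.VL × Bool) : a.o (a.j x) < 2 * (Finset.univ.sup a.oL + 1) := by
  rw [o_j]
  have h1 : a.oL x.1 ≤ Finset.univ.sup a.oL := Finset.le_sup (Finset.mem_univ _)
  split_ifs <;> omega

theorem o_inj : Function.Injective a.o := by
  intro u v h
  by_cases hu : ∃ x : a.VL × Bool, a.j x = u <;> by_cases hv : ∃ x : a.VL × Bool, a.j x = v
  · obtain ⟨x, rfl⟩ := hu
    obtain ⟨y, rfl⟩ := hv
    rw [o_j, o_j] at h
    obtain ⟨x1, x2⟩ := x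
    obtain ⟨y1, y2⟩ := y
    have h1 : a.oL x1 = a.oL y1 ∧ x2 = y2 := by
      cases x2 <;> cases y2 <;> simp at h ⊢ <;> omega
    rw [a.oL_inj h1.1, h1.2]
  · obtain ⟨x, rfl⟩ := hu
    have h1 := a.o_lt x
    rw [h, o_n a v hv] at h1
    omega
  · obtain ⟨y, rfl⟩ := hv
    have h1 := a.o_lt y
    rw [← h, o_n a u hu] at h1
    omega
  · rw [o_n a u hu, o_n a v hv] at h
    have h1 : (Fintype.equivFin a.V u : ℕ) = (Fintype.equivFin a.V v : ℕ) := by omega
    exact (Fintype.equivFin a.V).injective (Fin.ext h1)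

theorem o_jj (x y : a.VL) (b b' : Bool) (h : x ≠ y) :
    a.o (a.j (x, b)) < a.o (a.j (y, b')) ↔ a.oL x < a.oL y := by
  rw [o_j, o_j]
  have h1 : a.oL x ≠ a.oL y := fun h2 => h (a.oL_inj h2)
  cases b <;> cases b' <;> simp <;> omega

/-- the vertices of the join of the octahedralisation and of the first `t` triples of points -/
def B (t : ℕ) : Set a.V := {v | (∃ x, a.j x = v) ∨ ∃ (s : Fin a.r) (e : Fin 3), s.1 < t ∧ a.c s e = v}

theorem B_zero : a.B 0 = Set.range a.j := by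
  ext v
  constructor
  · rintro (h | ⟨s, e, h, _⟩)
    · exact h
    · exact absurd h (Nat.not_lt_zero _)
  · intro h
    exact Or.inl h

theorem c_notMem_B (t : Fin a.r) (e : Fin 3) : a.c t e ∉ a.B t.1 := by
  rintro (⟨x, hx⟩ | ⟨s, e', h1, h2⟩)
  · exact a.j_ne_c x t e hx
  · obtain ⟨h3, -⟩ := a.c_inj _ _ _ _ h2
    rw [h3] at h1
    exact lt_irrefl _ h1

theorem adj_B (t : Fin a.r) (e : Fin 3) (u : a.V) (hu : u ∈ a.B t.1) : a.P.adj u (a.c t e) := by
  rcases hu with ⟨x, rfl⟩ | ⟨s, e', h1, rfl⟩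
  · exact a.adj_jc x t e
  · rw [a.adj_cc]
    rintro rfl
    exact lt_irrefl _ h1

theorem not_adj_c (t : Fin a.r) (e e' : Fin 3) : ¬ a.P.adj (a.c t e) (a.c t e') := by
  rw [a.adj_cc]
  exact fun h => h rfl

theorem c_ne (t : Fin a.r) (e e' : Fin 3) (h : e ≠ e') : a.c t e ≠ a.c t e' :=
  fun h1 => h (a.c_inj _ _ _ _ h1).2

/-- the suspension -/
def D (t : Fin a.r) : Set a.V := insert (a.c t 0) (insert (a.c t 1) (a.B t.1))

theorem c2_notMem_D (t : Fin a.r) : a.c t 2 ∉ a.D t := by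
  rintro (h | h | h)
  · exact a.c_ne t 2 0 (by decide) h
  · exact a.c_ne t 2 1 (by decide) h
  · exact a.c_notMem_B t 2 h

theorem insert_D (t : Fin a.r) : insert (a.c t 2) (a.D t) = a.B (t.1 + 1) := by
  ext v
  constructor
  · rintro (rfl | rfl | rfl | (h | ⟨s, e, h1, h2⟩))
    · exact Or.inr ⟨t, 2, Nat.lt_succ_self _, rfl⟩
    · exact Or.inr ⟨t, 0, Nat.lt_succ_self _, rfl⟩
    · exact Or.inr ⟨t, 1, Nat.lt_succ_self _, rfl⟩
    · exact Or.inl h
    · exact Or.inr ⟨s, e, Nat.lt_succ_of_lt h1, h2⟩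
  · rintro (h | ⟨s, e, h1, h2⟩)
    · exact Or.inr (Or.inr (Or.inr (Or.inl h)))
    · rcases Nat.lt_succ_iff_lt_or_eq.1 h1 with h3 | h3
      · exact Or.inr (Or.inr (Or.inr (Or.inr ⟨s, e, h3, h2⟩)))
      · have h4 : s = t := Fin.ext h3
        subst h4
        have h5 : ∀ e : Fin 3, e = 0 ∨ e = 1 ∨ e = 2 := by decide
        rcases h5 e with rfl | rfl | rfl
        · exact Or.inr (Or.inl h2.symm)
        · exact Or.inr (Or.inr (Or.inl h2.symm))
        · exact Or.inl h2.symm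

theorem D_inter (t : Fin a.r) : a.D t ∩ Lk a.P.adj (a.c t 2) = a.B t.1 := by
  ext v
  constructor
  · rintro ⟨rfl | rfl | h, h2⟩
    · exact absurd h2.2 (a.not_adj_c t 0 2)
    · exact absurd h2.2 (a.not_adj_c t 1 2)
    · exact h
  · intro h
    refine ⟨Or.inr (Or.inr h), ?_, a.adj_B t 2 v h⟩
    rintro rfl
    exact a.c_notMem_B t 2 h

end PartA

theorem tendsto_scale {V : Type} [DecidableEq V] {adj : V → V → Prop} {W : Type} [Group W]
    {R : RA V adj W} (c : NChain R) {a : ℕ → ℕ} (C : ℕ)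
    (h : Tendsto (fun i => (a i : ℝ) / ((c.N i).index : ℝ)) atTop (𝓝 0)) :
    Tendsto (fun i => ((C * a i : ℕ) : ℝ) / ((c.N i).index : ℝ)) atTop (𝓝 0) := by
  have h1 := h.const_mul (C : ℝ)
  rw [mul_zero] at h1
  refine h1.congr fun i => ?_
  push_cast
  ring

theorem tendsto_sum {V : Type} [DecidableEq V] {adj : V → V → Prop} {W : Type} [Group W]
    {R : RA V adj W} (c : NChain R) {I : Type} (S : Finset I) (a : I → ℕ → ℕ)
    (h : ∀ x, Tendsto (fun i => (a x i : ℝ) / ((c.N i).index : ℝ)) atTop (𝓝 0)) :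
    Tendsto (fun i => ((∑ x ∈ S, a x i : ℕ) : ℝ) / ((c.N i).index : ℝ)) atTop (𝓝 0) := by
  classical
  have h1 := tendsto_finsetSum S (fun x _ => h x)
  rw [Finset.sum_const_zero] at h1
  refine h1.congr fun i => ?_
  push_cast
  rw [Finset.sum_div]

/-- Growth of the homology of the join. -/
theorem cgrowth (a : PartA) (oct : OCTStmt) (sus : SUSStmt) (seq : SEQStmt) (fxs : FXSStmt)
    (idx : IDXStmt) (W : Type) [Group W] (R : RA a.V a.P.adj W) (c : NChain R) (t : ℕ)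
    (ht : t ≤ a.r) : ∃ E : ℕ → ℕ,
      Tendsto (fun i => (E i : ℝ) / ((c.N i).index : ℝ)) atTop (𝓝 0) ∧
      ∀ i, (c.N i).index ≤ 2 ^ t * hh (ZMod 3) a.o (c.X i) (a.B t) (3 + t) + E i := by
  have h2 : (2 : ZMod 3) ≠ 0 := by decide
  induction t with
  | zero =>
    refine ⟨fun i => 2 ^ (Fintype.card a.VL + 1) *
      ∑ x : a.VL, fx (ZMod 3) (c.X i) (a.j (x, true)) (a.j (x, false)), ?_, ?_⟩
    · refine tendsto_scale c _ (tendsto_sum c Finset.univ
        (fun x i => fx (ZMod 3) (c.X i) (a.j (x, true)) (a.j (x, false))) fun x => ?_)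
      refine fxs a.V a.P.adj a.P.adj_symm W R c (ZMod 3) _ _ ?_ ?_
      · intro h
        have := a.j_inj h
        simp at this
      · rw [a.adj_jj]
        exact a.irrefl x
    · intro i
      obtain ⟨-, -, i3⟩ := idx a.V a.P.adj a.P.adj_symm W R
      have h3 := (i3 (c.N i) (c.le i) (c.fin i)).1
      have h4 := oct (ZMod 3) h2 a.V a.P.adj a.P.adj_symm (c.X i) a.o a.o_inj a.VL a.adjL a.symm
        a.irrefl a.oL a.oL_inj a.j a.j_inj a.adj_jj a.o_jj 2 a.dim a.z a.z_ne a.z_supp a.z_cyc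
      have h5 : Fintype.card (c.X i).X = (c.N i).index := h3
      rw [h5] at h4
      rw [a.B_zero, pow_zero, one_mul]
      exact h4
  | succ t ih =>
    obtain ⟨E, hE, hE'⟩ := ih (by omega)
    let s : Fin a.r := ⟨t, by omega⟩
    refine ⟨fun i => 2 ^ (t + 1) * (2 ^ (Fintype.card a.V + 1) *
      fx (ZMod 3) (c.X i) (a.c s 0) (a.c s 1)) + E i, ?_, ?_⟩
    · refine small_add c (fun i => le_refl _) ?_ hE
      refine tendsto_scale c _ (tendsto_scale c _ ?_)
      exact fxs a.V a.P.adj a.P.adj_symm W R c (ZMod 3) _ _ (a.c_ne s 0 1 (by decide))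
        (a.not_adj_c s 0 1)
    · intro i
      have h3 := hE' i
      have h4 := (seq (ZMod 3) h2 a.V a.P.adj a.P.adj_symm (c.X i) a.o a.o_inj (a.D s) (a.c s 2)
        (a.c2_notMem_D s) (3 + t)).2.2.2
      rw [a.D_inter, a.insert_D] at h4
      have h5 := sus (ZMod 3) h2 a.V a.P.adj a.P.adj_symm (c.X i) a.o a.o_inj (a.B t)
        (a.c s 0) (a.c s 1) (a.c_ne s 0 1 (by decide)) (a.not_adj_c s 0 1) (a.c_notMem_B s 0)
        (a.c_notMem_B s 1) (fun u hu => ⟨a.adj_B s 0 u hu, a.adj_B s 1 u hu⟩) (3 + t)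
      have h6 : hh (ZMod 3) a.o (c.X i) (a.D s) (3 + t) ≤ 2 ^ (Fintype.card a.V + 1) *
        fx (ZMod 3) (c.X i) (a.c s 0) (a.c s 1) := h5
      have h7 : hh (ZMod 3) a.o (c.X i) (a.B t) (3 + t) ≤
          2 * hh (ZMod 3) a.o (c.X i) (a.B (t + 1)) (3 + (t + 1)) +
          2 * (2 ^ (Fintype.card a.V + 1) * fx (ZMod 3) (c.X i) (a.c s 0) (a.c s 1)) := by
        refine h4.trans ?_
        exact Nat.add_le_add_left (Nat.mul_le_mul_left 2 h6) _
      calc (c.N i).index ≤ 2 ^ t * hh (ZMod 3) a.o (c.X i) (a.B t) (3 + t) + E i := h3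
        _ ≤ 2 ^ t * (2 * hh (ZMod 3) a.o (c.X i) (a.B (t + 1)) (3 + (t + 1)) +
            2 * (2 ^ (Fintype.card a.V + 1) * fx (ZMod 3) (c.X i) (a.c s 0) (a.c s 1))) + E i :=
          Nat.add_le_add_right (Nat.mul_le_mul_left _ h7) _
        _ = _ := by ring

theorem not_sing (raxs : RAXStmt) (rsd : RSDStmt) (oct : OCTStmt) (sus : SUSStmt)
    (seq : SEQStmt) (fxs : FXSStmt) (idx : IDXStmt) (b1 : PartB1) (res : RESStmt)
    (dua : DUAStmt) (inf : INFStmt) (dim : DIMStmt) (fct : FCTStmt) (spc : SPCStmt)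
    (dec : DECStmt) (a : PartA) : ¬ Sing 3 := by
  intro sing
  obtain ⟨W, iW, ⟨R⟩⟩ := raxs a.V a.P.adj a.P.adj_symm a.P.adj_irrefl
  obtain ⟨c⟩ := rsd a.V a.P.adj a.P.adj_symm W R
  obtain ⟨E, hE, hE'⟩ := cgrowth a oct sus seq fxs idx W R c a.r le_rfl
  have hvan := van_all 3 (by decide) sing b1 res dua idx inf dim seq fct spc dec (2 * a.m + 1)
  have hr := a.hr
  have h1 := hvan a.V a.P W R a.good a.o a.o_inj c (a.B a.r) (3 + a.r) (by omega)
  have h2 := (tendsto_scale c (2 ^ a.r) h1).add hE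
  rw [add_zero] at h2
  have h3 : ∀ i, (1 : ℝ) ≤ ((2 ^ a.r * hh (ZMod 3) a.o (c.X i) (a.B a.r) (3 + a.r) : ℕ) : ℝ) /
      ((c.N i).index : ℝ) + (E i : ℝ) / ((c.N i).index : ℝ) := by
    intro i
    rw [← add_div, le_div_iff₀ (idx_pos c i), one_mul]
    exact_mod_cast hE' i
  have h4 : (1 : ℝ) ≤ 0 := ge_of_tendsto' h2 h3
  norm_num at h4

end Pool.LU
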