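import Pool.Agent.H99.LU.CStmts

/-!
Project LU, part C: module LES (dimensions in a short exact sequence of complexes).
-/

set_option autoImplicit false

noncomputable section

namespace Pool.LU

theorem les_rn {F X Y : Type} [Field F] [AddCommGroup X] [Module F X] [FiniteDimensional F X]
    [AddCommGroup Y] [Module F Y] (P : Submodule F X) (φ : X →ₗ[F] Y) :
    Module.finrank F ↥(P.map φ) + Module.finrank F ↥(P ⊓ LinearMap.ker φ) =
      Module.finrank F ↥P := by
  have h1 := LinearMap.finrank_range_add_finrank_ker (φ.domRestrict P)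
  have h2 : LinearMap.range (φ.domRestrict P) = P.map φ := by
    ext y
    constructor
    · rintro ⟨x, rfl⟩
      exact ⟨x.1, x.2, rfl⟩
    · rintro ⟨x, hx, rfl⟩
      exact ⟨⟨x, hx⟩, rfl⟩
  have h3 : Module.finrank F ↥(LinearMap.ker (φ.domRestrict P)) =
      Module.finrank F ↥(P ⊓ LinearMap.ker φ) := by
    have h4 : (LinearMap.ker (φ.domRestrict P)).map P.subtype = P ⊓ LinearMap.ker φ := by
      ext x
      constructor
      · rintro ⟨y, hy, rfl⟩
        exact ⟨y.2, hy⟩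
      · rintro ⟨hx1, hx2⟩
        exact ⟨⟨x, hx1⟩, hx2, rfl⟩
    rw [← h4]
    exact (Submodule.equivMapOfInjective P.subtype P.injective_subtype _).finrank_eq
  rw [← h2, ← h3]
  exact h1

theorem les' : LESStmt := by
  intro F _ X Y _ _ _ _ _ _ d e f S T U hd he hef hS hT hU hTS hker hmap hS0 hT0 hU0 h0 h k
  have mono : ∀ {P Q : Submodule F X}, P ≤ Q → Module.finrank F ↥P ≤ Module.finrank F ↥Q :=
    fun hPQ => Submodule.finrank_mono hPQ
  have mono' : ∀ {P Q : Submodule F Y}, P ≤ Q → Module.finrank F ↥P ≤ Module.finrank F ↥Q :=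
    fun hPQ => Submodule.finrank_mono hPQ
  -- boundaries are cycles
  have bzS : ∀ k, Module.finrank F ↥((S (k + 1)).map d) ≤
      Module.finrank F ↥(S k ⊓ LinearMap.ker d) := fun k => mono (le_inf (hS k) (by
    rintro _ ⟨x, _, rfl⟩
    exact hd x))
  have bzT : ∀ k, Module.finrank F ↥((T (k + 1)).map d) ≤
      Module.finrank F ↥(T k ⊓ LinearMap.ker d) := fun k => mono (le_inf (hT k) (by
    rintro _ ⟨x, _, rfl⟩
    exact hd x))
  have bzU : ∀ k, Module.finrank F ↥((U (k + 1)).map e) ≤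
      Module.finrank F ↥(U k ⊓ LinearMap.ker e) := fun k => mono' (le_inf (hU k) (by
    rintro _ ⟨x, _, rfl⟩
    exact he x))
  -- images under `f`
  have fB : ∀ k, ((S (k + 2)).map d).map f = (U (k + 1)).map e := by
    intro k
    ext y
    constructor
    · rintro ⟨_, ⟨x, hx, rfl⟩, rfl⟩
      refine ⟨- f x, ?_, ?_⟩
      · rw [← hmap (k + 1)]
        exact neg_mem ⟨x, hx, rfl⟩
      · rw [map_neg, hef, neg_neg]
    · rintro ⟨y, hy, rfl⟩
      rw [← hmap (k + 1)] at hy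
      obtain ⟨x, hx, rfl⟩ := hy
      refine ⟨- d x, neg_mem ⟨x, hx, rfl⟩, ?_⟩
      rw [map_neg, hef]
  have kB1 : ∀ k, (T (k + 2)).map d ≤ (S (k + 2)).map d ⊓ LinearMap.ker f := by
    rintro k _ ⟨x, hx, rfl⟩
    refine ⟨⟨x, hTS _ hx, rfl⟩, ?_⟩
    have h1 : d x ∈ T (k + 1) := hT (k + 1) ⟨x, hx, rfl⟩
    rw [← hker] at h1
    exact h1.2
  have kB2 : ∀ k, (S (k + 2)).map d ⊓ LinearMap.ker f ≤ T (k + 1) ⊓ LinearMap.ker d := by
    rintro k y ⟨hy1, hy2⟩
    refine ⟨?_, ?_⟩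
    · rw [← hker]
      exact ⟨hS (k + 1) hy1, hy2⟩
    · obtain ⟨x, _, rfl⟩ := hy1
      exact hd x
  have rB := fun k => les_rn ((S (k + 2)).map d) f
  have kZ : ∀ k, S (k + 1) ⊓ LinearMap.ker d ⊓ LinearMap.ker f = T (k + 1) ⊓ LinearMap.ker d := by
    intro k
    rw [inf_right_comm, hker]
  have rZ := fun k => les_rn (S (k + 1) ⊓ LinearMap.ker d) f
  have fZ : ∀ k, (S (k + 1) ⊓ LinearMap.ker d).map f ≤ U k ⊓ LinearMap.ker e := by
    rintro k _ ⟨x, ⟨hx1, hx2⟩, rfl⟩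
    refine ⟨?_, ?_⟩
    · rw [← hmap k]
      exact ⟨x, hx1, rfl⟩
    · have h1 : d x = 0 := hx2
      show e (f x) = 0
      rw [hef, h1, map_zero, neg_zero]
  have fZ' : ∀ k, (U (k + 1)).map e ≤ (S (k + 1) ⊓ LinearMap.ker d).map f := by
    intro k
    rw [← fB k]
    apply Submodule.map_mono
    refine le_inf (hS (k + 1)) ?_
    rintro _ ⟨x, _, rfl⟩
    exact hd x
  -- the preimage `Q` of `T k` in `S (k + 1)`
  have hQd : (S (k + 1) ⊓ (T k).comap d).map d ≤ T k ⊓ LinearMap.ker d := by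
    rintro _ ⟨x, ⟨_, hx⟩, rfl⟩
    exact ⟨hx, hd x⟩
  have hQd' : (S (k + 1) ⊓ (T k).comap d) ⊓ LinearMap.ker d = S (k + 1) ⊓ LinearMap.ker d := by
    ext x
    constructor
    · rintro ⟨⟨h1, _⟩, h3⟩
      exact ⟨h1, h3⟩
    · rintro ⟨h1, h3⟩
      refine ⟨⟨h1, ?_⟩, h3⟩
      have h4 : d x = 0 := h3
      show d x ∈ T k
      rw [h4]
      exact zero_mem _
  have hQf : (S (k + 1) ⊓ (T k).comap d).map f = U k ⊓ LinearMap.ker e := by
    ext y
    constructor
    · rintro ⟨x, ⟨hx1, hx2⟩, rfl⟩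
      refine ⟨?_, ?_⟩
      · rw [← hmap k]
        exact ⟨x, hx1, rfl⟩
      · have h1 : d x ∈ T k := hx2
        rw [← hker] at h1
        have h2 : f (d x) = 0 := h1.2
        show e (f x) = 0
        rw [hef, h2, neg_zero]
    · rintro ⟨hy1, hy2⟩
      rw [← hmap k] at hy1
      obtain ⟨x, hx, rfl⟩ := hy1
      refine ⟨x, ⟨hx, ?_⟩, rfl⟩
      show d x ∈ T k
      rw [← hker]
      refine ⟨hS k ⟨x, hx, rfl⟩, ?_⟩
      have h1 : e (f x) = 0 := hy2
      rw [hef, neg_eq_zero] at h1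
      exact h1
  have hQf' : (S (k + 1) ⊓ (T k).comap d) ⊓ LinearMap.ker f = T (k + 1) := by
    rw [inf_right_comm, hker]
    refine inf_eq_left.2 fun x hx => ?_
    exact hT k ⟨x, hx, rfl⟩
  have hBQ : (S (k + 1)).map d ⊓ T k ≤ (S (k + 1) ⊓ (T k).comap d).map d := by
    rintro _ ⟨⟨x, hx, rfl⟩, hx2⟩
    exact ⟨x, ⟨hx, hx2⟩, rfl⟩
  have q1 := les_rn (S (k + 1) ⊓ (T k).comap d) d
  have q2 := les_rn (S (k + 1) ⊓ (T k).comap d) f
  rw [hQd'] at q1
  rw [hQf, hQf'] at q2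
  have q3 := les_rn (T (k + 1)) d
  have m1 := mono hQd
  have m2 := mono (kB1 k)
  have m3 := mono (kB2 k)
  have m4 := rB k
  rw [fB k] at m4
  have m5 := rZ k
  rw [kZ k] at m5
  have m6 := mono' (fZ k)
  have m7 := mono' (fZ' k)
  have z1 := bzS k
  have z2 := bzT k
  have z3 := bzU k
  have z4 : Module.finrank F ↥((S (k + 2)).map d) ≤
      Module.finrank F ↥(S (k + 1) ⊓ LinearMap.ker d) := bzS (k + 1)
  have z5 : Module.finrank F ↥((T (k + 2)).map d) ≤
      Module.finrank F ↥(T (k + 1) ⊓ LinearMap.ker d) := bzT (k + 1)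
  refine ⟨?_, ?_, ?_, ?_⟩
  · show Module.finrank F ↥(S 0 ⊓ LinearMap.ker d) - Module.finrank F ↥((S (0 + 1)).map d) ≤
      Module.finrank F ↥(T 0 ⊓ LinearMap.ker d) - Module.finrank F ↥((T (0 + 1)).map d)
    rw [h0]
    have := mono (Submodule.map_mono (f := d) (hTS (0 + 1)))
    omega
  · show Module.finrank F ↥(S (k + 1) ⊓ LinearMap.ker d) -
        Module.finrank F ↥((S (k + 2)).map d) ≤
      (Module.finrank F ↥(T (k + 1) ⊓ LinearMap.ker d) -
        Module.finrank F ↥((T (k + 2)).map d)) +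
      (Module.finrank F ↥(U k ⊓ LinearMap.ker e) - Module.finrank F ↥((U (k + 1)).map e))
    omega
  · show Module.finrank F ↥(T k ⊓ LinearMap.ker d) - Module.finrank F ↥((T (k + 1)).map d) ≤
      (Module.finrank F ↥(S k ⊓ LinearMap.ker d) - Module.finrank F ↥((S (k + 1)).map d)) +
      (Module.finrank F ↥(U k ⊓ LinearMap.ker e) - Module.finrank F ↥((U (k + 1)).map e))
    -- `T k ∩ ker d` modulo `T k ∩ d (S (k+1))` embeds into the homology of `S`
    have s1 := Submodule.finrank_sup_add_finrank_inf_eq (T k ⊓ LinearMap.ker d)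
      ((S (k + 1)).map d)
    have s2 : Module.finrank F ↥((T k ⊓ LinearMap.ker d) ⊔ (S (k + 1)).map d) ≤
        Module.finrank F ↥(S k ⊓ LinearMap.ker d) := by
      refine mono (sup_le (inf_le_inf_right _ (hTS k)) (le_inf (hS k) ?_))
      rintro _ ⟨x, _, rfl⟩
      exact hd x
    have s3 : Module.finrank F ↥((T k ⊓ LinearMap.ker d) ⊓ (S (k + 1)).map d) ≤
        Module.finrank F ↥((S (k + 1) ⊓ (T k).comap d).map d) := by
      refine (mono ?_).trans (mono hBQ)
      exact le_inf inf_le_right (inf_le_left.trans inf_le_left)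
    omega
  · show Module.finrank F ↥(U k ⊓ LinearMap.ker e) - Module.finrank F ↥((U (k + 1)).map e) ≤
      (Module.finrank F ↥(S (k + 1) ⊓ LinearMap.ker d) -
        Module.finrank F ↥((S (k + 2)).map d)) +
      (Module.finrank F ↥(T k ⊓ LinearMap.ker d) - Module.finrank F ↥((T (k + 1)).map d))
    omega

end Pool.LU
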