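import Pool.Agent.H99.LU.RDefs
import Pool.Agent.H3.L2.Euler

/-!
Project LU, part C: the cubical resolution, from the modules RE1, RE2, RE3.
-/

set_option autoImplicit false

open scoped BigOperators Topology
open Filter Pool.H3.L2

noncomputable section

namespace Pool.LU

theorem rea_deg {V : Type} [Fintype V] [DecidableEq V] {adj : V → V → Prop} {W : Type} [Group W]
    (R : RA V adj W) (g : (V → ℤˣ) → W) (hg : ∀ ε, R.χ (g ε) = ε) (o : V → ℕ) (s t : CubS adj)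
    (h : cubD R g hg o s t ≠ 0) : s.1.1.card = t.1.1.card + 1 := by
  by_contra hc
  apply h
  unfold cubD
  refine Finset.sum_eq_zero fun v hv => ?_
  rw [if_neg]
  intro h1
  apply hc
  rw [h1, Finset.card_erase_add_one hv]

theorem rea_single {S R' : Type} [Fintype S] [DecidableEq S] [Ring R'] (D : Matrix S S R') (s t : S) :
    Matrix.vecMul (Pi.single s (1 : R')) D t = D s t := by
  rw [Matrix.single_one_vecMul]
  rfl

theorem bd_apply_zero_of_allCh {V : Type} [Fintype V] [DecidableEq V] {adj : V → V → Prop}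
    {W : Type} [Group W] (R : RA V adj W) (o : V → ℕ) (x : Finset V → W → ℤ)
    (hx : AllCh adj (fun v w => w * R.s v) x) (hf : ∀ σ, (Function.support (x σ)).Finite) :
    ∑ᶠ w, bd ℤ o W x ∅ w = 0 := by
  have h1 : ∀ v, ∑ᶠ w, x {v} w = 0 := by
    intro v
    have h2 : ∑ᶠ w, x {v} (w * R.s v) = ∑ᶠ w, x {v} w :=
      finsum_comp_equiv (Equiv.mulRight (R.s v)) (f := fun w => x {v} w)
    have h3 : ∑ᶠ w, x {v} (w * R.s v) = - ∑ᶠ w, x {v} w := by
      rw [← finsum_neg_distrib]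
      exact finsum_congr fun w => hx.2 {v} v (Finset.mem_singleton_self v) w
    linarith
  have h4 : ∀ w, bd ℤ o W x ∅ w = ∑ v ∈ Finset.univ \ ∅, sg o v ∅ * x {v} w := by
    intro w
    rw [bd_apply]
    rfl
  have h5 : ∀ v, (Function.support fun w => sg o v ∅ * x {v} w).Finite := by
    intro v
    refine (hf {v}).subset ?_
    intro w hw
    rw [Function.mem_support] at hw ⊢
    intro h
    exact hw (by rw [h, mul_zero])
  rw [finsum_congr h4, finsum_sum_comm _ _ (fun v _ => h5 v)]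
  refine Finset.sum_eq_zero fun v _ => ?_
  rw [← mul_finsum (f := fun w => x {v} w), h1, mul_zero]

theorem hk_eq_hh {V : Type} [Fintype V] [DecidableEq V] {adj : V → V → Prop} (F : Type) [Field F]
    (B : BCx F) (X : XSet V adj) (o : V → ℕ) (Ψ : (B.S → F) →ₗ[F] (Finset V → X.X → F))
    (Ψinj : Function.Injective Ψ) (Ψrange : ∀ x, x ∈ LinearMap.range Ψ ↔ AllCh adj X.ρ x)
    (Ψdeg : ∀ v k, (∀ s, B.deg s ≠ k → v s = 0) ↔ ∀ σ, Ψ v σ ≠ 0 → σ.card = k)
    (Ψbd : ∀ v, Ψ (Matrix.vecMul v B.D) = bd F o X.X (Ψ v)) (k : ℕ) :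
    Module.finrank F (B.Hk k) = hh F o X Set.univ k := by
  have hCh : ∀ k, ∀ x : Finset V → X.X → F, x ∈ Ch F adj X.ρ Set.univ k ↔
      AllCh adj X.ρ x ∧ ∀ σ, x σ ≠ 0 → σ.card = k := by
    intro k x
    constructor
    · rintro ⟨g1, g2⟩
      exact ⟨⟨fun σ hσ => (g1 σ hσ).2.2, g2⟩, fun σ hσ => (g1 σ hσ).1⟩
    · rintro ⟨⟨g1, g2⟩, g3⟩
      exact ⟨fun σ hσ => ⟨g3 σ hσ, fun v _ => Set.mem_univ v, g1 σ hσ⟩, g2⟩
  have hZ : (B.Zk k).map Ψ = Ch F adj X.ρ Set.univ k ⊓ LinearMap.ker (bd F o X.X) := by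
    ext x
    constructor
    · rintro ⟨v, ⟨hv1, hv2⟩, rfl⟩
      refine ⟨(hCh _ _).2 ⟨(Ψrange _).1 ⟨v, rfl⟩, (Ψdeg v k).1 hv1⟩, ?_⟩
      show bd F o X.X (Ψ v) = 0
      rw [← Ψbd, hv2, map_zero]
    · rintro ⟨hx1, hx2⟩
      obtain ⟨hx3, hx4⟩ := (hCh _ _).1 hx1
      obtain ⟨v, rfl⟩ := (Ψrange x).2 hx3
      refine ⟨v, ⟨(Ψdeg v k).2 hx4, ?_⟩, rfl⟩
      apply Ψinj
      rw [map_zero]
      exact (Ψbd v).trans hx2
  have hBk : (B.Bk k).map Ψ = (Ch F adj X.ρ Set.univ (k + 1)).map (bd F o X.X) := by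
    ext x
    constructor
    · rintro ⟨_, ⟨w, hw, rfl⟩, rfl⟩
      exact ⟨Ψ w, (hCh _ _).2 ⟨(Ψrange _).1 ⟨w, rfl⟩, (Ψdeg w (k + 1)).1 hw⟩, (Ψbd w).symm⟩
    · rintro ⟨y, hy, rfl⟩
      obtain ⟨hy3, hy4⟩ := (hCh _ _).1 hy
      obtain ⟨w, rfl⟩ := (Ψrange y).2 hy3
      exact ⟨_, ⟨w, (Ψdeg w (k + 1)).2 hy4, rfl⟩, Ψbd w⟩
  have e1 : Module.finrank F (B.Zk k) =
      Module.finrank F ↥(Ch F adj X.ρ Set.univ k ⊓ LinearMap.ker (bd F o X.X)) := by
    rw [← hZ]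
    exact (Submodule.equivMapOfInjective Ψ Ψinj _).finrank_eq
  have e2 : Module.finrank F (B.Bk k) =
      Module.finrank F ↥((Ch F adj X.ρ Set.univ (k + 1)).map (bd F o X.X)) := by
    rw [← hBk]
    exact (Submodule.equivMapOfInjective Ψ Ψinj _).finrank_eq
  have e3 := B.finrank_HkE k
  unfold hh
  omega

theorem resRea (raf : RAFStmt) (chb : CHBStmt) (re1 : RE1Stmt) (re2 : RE2Stmt) (re3 : RE3Stmt) :
    RESStmt := by
  classical
  intro V _ _ adj hs hi W _ R o ho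
  have hR := raf V adj W R
  have hg : ∃ g : (V → ℤˣ) → W, ∀ ε, R.χ (g ε) = ε := by
    choose g h1 h2 using fun ε : V → ℤˣ => hR.ex Set.univ ε (fun v hv => absurd (Set.mem_univ v) hv)
    exact ⟨g, h2⟩
  obtain ⟨g, hg⟩ := hg
  obtain ⟨Φ, Φinj, Φrange, Φdeg, Φbd, Φaug⟩ := re2 V adj hs hi W R o ho g hg
  have hbb := (chb ℤ V adj o ho W (fun v w => w * R.s v)).1
  have hvv : ∀ v, Matrix.vecMul (Matrix.vecMul v (cubD R g hg o)) (cubD R g hg o) = 0 := by
    intro v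
    apply Φinj
    rw [Φbd, Φbd, hbb, map_zero]
  have hDD : cubD R g hg o * cubD R g hg o = 0 := by
    funext s t
    have h1 := hvv (Pi.single s 1)
    rw [Matrix.vecMul_vecMul] at h1
    have h2 := rea_single (cubD R g hg o * cubD R g hg o) s t
    rw [h1] at h2
    exact h2.symm
  have hae : ∀ s : CubS adj, s.1.1.card ≠ 0 → (if s.1.1 = ∅ then (1 : ℤ) else 0) = 0 := by
    intro s h
    rw [if_neg]
    intro h1
    apply h
    rw [h1, Finset.card_empty]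
  have haug : ∀ v : CubS adj → GR R.χ.ker,
      (∑ s : CubS adj, aug (v s) * (if s.1.1 = ∅ then (1 : ℤ) else 0)) = ∑ᶠ w, Φ v ∅ w := by
    intro v
    rw [← Φaug]
    refine Finset.sum_congr rfl fun s _ => ?_
    split_ifs <;> simp
  have h00 : ∃ v : CubS adj → GR R.χ.ker,
      (∑ s : CubS adj, aug (v s) * (if s.1.1 = ∅ then (1 : ℤ) else 0)) = 1 := by
    let s0 : CubS adj := ⟨(∅, 1), fun u hu => absurd hu (Finset.notMem_empty u), fun v _ => rfl⟩
    refine ⟨Pi.single s0 1, ?_⟩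
    rw [Finset.sum_eq_single s0]
    · rw [Pi.single_eq_same, if_pos rfl, mul_one]
      unfold aug
      rw [MonoidAlgebra.one_def]
      show (Finsupp.single _ _).sum _ = _
      rw [Finsupp.sum_single_index rfl]
    · intro s _ hs'
      rw [Pi.single_eq_of_ne hs']
      have : aug (0 : GR R.χ.ker) = 0 := by
        unfold aug
        rfl
      rw [this, zero_mul]
    · intro h
      exact absurd (Finset.mem_univ _) h
  have hres : ∀ v : CubS adj → GR R.χ.ker, Matrix.vecMul v (cubD R g hg o) = 0 →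
      (∑ s : CubS adj, aug (v s) * (if s.1.1 = ∅ then (1 : ℤ) else 0)) = 0 →
      ∃ w, Matrix.vecMul w (cubD R g hg o) = v := by
    intro v h1 h2
    have h3 : bd ℤ o W (Φ v) = 0 := by
      rw [← Φbd, h1, map_zero]
    have h4 : ∑ᶠ w, Φ v ∅ w = 0 := by
      rw [← haug]
      exact h2
    have h5 := (Φrange (Φ v)).1 ⟨v, rfl⟩
    obtain ⟨y, hy1, hy2, hy3⟩ := re1 V adj hs hi W R o ho (Φ v) h5.1 h5.2 h3 h4
    obtain ⟨w, rfl⟩ := (Φrange y).2 ⟨hy1, hy2⟩
    refine ⟨w, ?_⟩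
    apply Φinj
    rw [Φbd, hy3]
  have hcyc : ∀ s : CubS adj, (∑ t : CubS adj, aug (cubD R g hg o s t) *
      (if t.1.1 = ∅ then (1 : ℤ) else 0)) = 0 := by
    intro s
    have h1 := haug (Matrix.vecMul (Pi.single s 1) (cubD R g hg o))
    rw [Φbd, bd_apply_zero_of_allCh R o _ ((Φrange _).1 ⟨_, rfl⟩).1
      ((Φrange _).1 ⟨_, rfl⟩).2] at h1
    refine Eq.trans (Finset.sum_congr rfl fun t _ => ?_) h1
    rw [rea_single]
  refine ⟨{ S := CubS adj
            deg := fun s => s.1.1.card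
            D := cubD R g hg o
            deg_D := fun s t h => rea_deg R g hg o s t h
            D_D := hDD }, ⟨fun s : CubS adj => if s.1.1 = ∅ then 1 else 0, hae, hcyc, h00, hres⟩, ?_⟩
  intro N _ _ h1 h2 F _ k
  obtain ⟨Ψ, Ψinj, Ψrange, Ψdeg, Ψbd⟩ := re3 V adj hs hi W R o ho g hg N h1 h2 F
  exact hk_eq_hh F _ _ o Ψ Ψinj Ψrange Ψdeg Ψbd k

end Pool.LU
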