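import Pool.Agent.H72.LU.EIG
import Pool.Agent.H72.LU.CHB

/-!
Project LU, part C, module SUS: the suspension has small homology.
-/

set_option autoImplicit false

open scoped BigOperators

noncomputable section

namespace Pool.LU

namespace Sus

section

variable {F : Type} [Field F] {V : Type} [DecidableEq V] {adj : V → V → Prop}
  {X : XSet V adj} {a b : V}

/-- functions antisymmetric under `a` and `b` are invariant under the product -/
theorem inf_le_Fix (σ : Finset V) (a b : V) :
    Eg F X (insert a σ) ⊓ Eg F X (insert b σ) ≤ Fix F X a b := by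
  rintro f ⟨h1, h2⟩ y
  have h3 := h1 a (Finset.mem_insert_self a σ) (X.ρ b y)
  have h4 := h2 b (Finset.mem_insert_self b σ) y
  rw [h3, h4, neg_neg]

/-- the codimension of the sum -/
theorem codim_le (h2 : (2 : F) ≠ 0) (σ : Finset V) (ha : a ∉ σ) (hb : b ∉ σ)
    (hca : Clq adj (insert a σ)) (hcb : Clq adj (insert b σ)) :
    Module.finrank F ↥((Eg F X σ).map (Eg F X (insert a σ) ⊔ Eg F X (insert b σ)).mkQ) ≤
      fx F X a b := by
  have e1 := two_mul_finrank_Eg F X h2 a σ ha hca
  have e2 := two_mul_finrank_Eg F X h2 b σ hb hcb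
  have e3 := Submodule.finrank_sup_add_finrank_inf_eq (Eg F X (insert a σ)) (Eg F X (insert b σ))
  have e4 : Module.finrank F ↥(Eg F X (insert a σ) ⊓ Eg F X (insert b σ)) ≤ fx F X a b :=
    Submodule.finrank_mono (inf_le_Fix σ a b)
  have hle : Eg F X (insert a σ) ⊔ Eg F X (insert b σ) ≤ Eg F X σ := by
    refine sup_le ?_ ?_
    · intro f hf v hv y
      exact hf v (Finset.mem_insert_of_mem hv) y
    · intro f hf v hv y
      exact hf v (Finset.mem_insert_of_mem hv) y
  have e5 := LinearMap.finrank_range_add_finrank_ker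
    ((Eg F X (insert a σ) ⊔ Eg F X (insert b σ)).mkQ.domRestrict (Eg F X σ))
  have e6 : LinearMap.range
      ((Eg F X (insert a σ) ⊔ Eg F X (insert b σ)).mkQ.domRestrict (Eg F X σ)) =
      (Eg F X σ).map (Eg F X (insert a σ) ⊔ Eg F X (insert b σ)).mkQ := by
    ext y
    constructor
    · rintro ⟨x, rfl⟩
      exact ⟨x.1, x.2, rfl⟩
    · rintro ⟨x, hx, rfl⟩
      exact ⟨⟨x, hx⟩, rfl⟩
  have e7 : Module.finrank F ↥(LinearMap.ker
      ((Eg F X (insert a σ) ⊔ Eg F X (insert b σ)).mkQ.domRestrict (Eg F X σ))) =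
      Module.finrank F ↥(Eg F X (insert a σ) ⊔ Eg F X (insert b σ)) := by
    have h4 : (LinearMap.ker ((Eg F X (insert a σ) ⊔ Eg F X (insert b σ)).mkQ.domRestrict
        (Eg F X σ))).map (Eg F X σ).subtype = Eg F X (insert a σ) ⊔ Eg F X (insert b σ) := by
      ext x
      constructor
      · rintro ⟨y, hy, rfl⟩
        exact (Submodule.Quotient.mk_eq_zero _).1 hy
      · intro hx
        exact ⟨⟨x, hle hx⟩, (Submodule.Quotient.mk_eq_zero _).2 hx, rfl⟩
    have h5 := (Submodule.equivMapOfInjective (Eg F X σ).subtype (Eg F X σ).injective_subtype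
      (LinearMap.ker ((Eg F X (insert a σ) ⊔ Eg F X (insert b σ)).mkQ.domRestrict
        (Eg F X σ)))).finrank_eq
    rw [h4] at h5
    exact h5
  rw [← e6]
  omega

end

end Sus

open Sus in
theorem sus' : SUSStmt := by
  classical
  intro F _ h2 V _ _ adj hsym X o ho B a b hab hnab haB hbB hadj k
  -- abbreviations
  set A : Set V := insert a (insert b B) with hA
  have hmemB : ∀ v, v ∈ A → v ≠ a → v ≠ b → v ∈ B := by
    intro v hv h1 h3
    rcases hv with h | h | h
    · exact absurd h h1
    · exact absurd h h3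
    · exact h
  have hnc : ∀ σ : Finset V, a ∈ σ → b ∈ σ → ¬ Clq adj σ :=
    fun σ h1 h3 h4 => hnab (h4 a h1 b h3 hab)
  -- for a clique inside `B`, adding `a` gives a clique
  have hcl : ∀ (c : V), (∀ u ∈ B, adj u c) → ∀ σ : Finset V, (∀ v ∈ σ, v ∈ B) → Clq adj σ →
      Clq adj (insert c σ) := by
    intro c hc σ h1 h3 u hu v hv huv
    rcases Finset.mem_insert.1 hu with rfl | hu'
    · rcases Finset.mem_insert.1 hv with rfl | hv'
      · exact absurd rfl huv
      · exact hsym _ _ (hc v (h1 v hv'))
    · rcases Finset.mem_insert.1 hv with rfl | hv'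
      · exact hc u (h1 u hu')
      · exact h3 u hu' v hv' huv
  let P : Finset V → Submodule F (X.X → F) := fun σ => Eg F X (insert a σ) ⊔ Eg F X (insert b σ)
  let good : Finset V → Prop := fun σ => Clq adj σ ∧ ∀ v ∈ σ, v ∈ B
  let T : (σ : Finset V) → Submodule F ((X.X → F) ⧸ P σ) := fun σ =>
    if good σ then (Eg F X σ).map (P σ).mkQ else ⊥
  have hT : ∀ σ, Module.finrank F ↥(T σ) ≤ fx F X a b := by
    intro σ
    by_cases h : good σ
    · have e : T σ = (Eg F X σ).map (P σ).mkQ := if_pos h
      rw [e]
      exact codim_le h2 σ (fun h3 => haB (h.2 a h3)) (fun h3 => hbB (h.2 b h3))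
        (hcl a (fun u hu => (hadj u hu).1) σ h.2 h.1) (hcl b (fun u hu => (hadj u hu).2) σ h.2 h.1)
    · have e : T σ = ⊥ := if_neg h
      rw [e, finrank_bot]
      exact Nat.zero_le _
  -- the cycles
  set Z := Ch F adj X.ρ A k ⊓ LinearMap.ker (bd F o X.X) with hZ
  set Bd := (Ch F adj X.ρ A (k + 1)).map (bd F o X.X) with hBd
  have hmem : ∀ x ∈ Z, ∀ σ, (P σ).mkQ (if a ∈ σ ∨ b ∈ σ then 0 else x σ) ∈ T σ := by
    rintro x ⟨⟨hx1, hx2⟩, -⟩ σ
    by_cases h : a ∈ σ ∨ b ∈ σ
    · rw [if_pos h, map_zero]
      exact zero_mem _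
    · rw [if_neg h]
      push Not at h
      by_cases h3 : x σ = 0
      · rw [h3, map_zero]
        exact zero_mem _
      · obtain ⟨h4, h5, h6⟩ := hx1 σ h3
        have hg : good σ := ⟨h6, fun v hv => hmemB v (h5 v hv) (fun e => h.1 (e ▸ hv))
          (fun e => h.2 (e ▸ hv))⟩
        have e : T σ = (Eg F X σ).map (P σ).mkQ := if_pos hg
        rw [e]
        exact ⟨x σ, fun v hv y => hx2 σ v hv y, rfl⟩
  let g : ↥Z →ₗ[F] ((σ : Finset V) → ↥(T σ)) :=
    { toFun := fun x σ => ⟨(P σ).mkQ (if a ∈ σ ∨ b ∈ σ then 0 else x.1 σ), hmem x.1 x.2 σ⟩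
      map_add' := by
        intro x y
        funext σ
        apply Subtype.ext
        show (P σ).mkQ _ = (P σ).mkQ _ + (P σ).mkQ _
        rw [← map_add]
        congr 1
        split_ifs
        · rw [add_zero]
        · rfl
      map_smul' := by
        intro c x
        funext σ
        apply Subtype.ext
        show (P σ).mkQ _ = c • (P σ).mkQ _
        rw [← map_smul]
        congr 1
        split_ifs
        · rw [smul_zero]
        · rfl }
  have hg : ∀ x : ↥Z, g x = 0 ↔ ∀ σ, a ∉ σ → b ∉ σ → x.1 σ ∈ P σ := by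
    intro x
    constructor
    · intro h σ h3 h4
      have h5 := congrArg Subtype.val (congrFun h σ)
      have h6 : (P σ).mkQ (if a ∈ σ ∨ b ∈ σ then 0 else x.1 σ) = 0 := h5
      rw [if_neg (by push Not; exact ⟨h3, h4⟩)] at h6
      exact (Submodule.Quotient.mk_eq_zero _).1 h6
    · intro h
      funext σ
      apply Subtype.ext
      show (P σ).mkQ (if a ∈ σ ∨ b ∈ σ then 0 else x.1 σ) = 0
      by_cases h3 : a ∈ σ ∨ b ∈ σ
      · rw [if_pos h3, map_zero]
      · rw [if_neg h3]
        push Not at h3
        exact (Submodule.Quotient.mk_eq_zero _).2 (h σ h3.1 h3.2)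
  have d1 := LinearMap.finrank_range_add_finrank_ker (K := F) (V := ↥Z)
    (V₂ := (σ : Finset V) → ↥(T σ)) g
  have d2 : Module.finrank F ↥(LinearMap.range g) ≤ 2 ^ Fintype.card V * fx F X a b := by
    refine (Submodule.finrank_le _).trans ?_
    have hfree : ∀ σ, Module.Free F ↥(T σ) := fun σ => Module.Free.of_divisionRing F _
    rw [Module.finrank_pi_fintype]
    refine (Finset.sum_le_sum fun σ _ => hT σ).trans ?_
    rw [Finset.sum_const, Finset.card_univ, Fintype.card_finset, smul_eq_mul]
  -- the cycles without the middle component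
  let K : Submodule F (Finset V → X.X → F) :=
    { carrier := {x | x ∈ Z ∧ ∀ σ, a ∉ σ → b ∉ σ → x σ = 0}
      add_mem' := by
        rintro x y ⟨h3, h4⟩ ⟨h5, h6⟩
        refine ⟨add_mem h3 h5, fun σ h7 h8 => ?_⟩
        rw [Pi.add_apply, h4 σ h7 h8, h6 σ h7 h8, add_zero]
      zero_mem' := ⟨zero_mem _, fun σ _ _ => rfl⟩
      smul_mem' := by
        rintro c x ⟨h3, h4⟩
        refine ⟨Submodule.smul_mem _ _ h3, fun σ h7 h8 => ?_⟩
        rw [Pi.smul_apply, h4 σ h7 h8, smul_zero] }
  -- the boundary on sets without `a` and `b`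
  have hbd : ∀ x : Finset V → X.X → F, (∀ σ, a ∉ σ → b ∉ σ → x σ = 0) → ∀ τ, a ∉ τ → b ∉ τ →
      ∀ y, bd F o X.X x τ y = (sg o a τ : F) * x (insert a τ) y +
        (sg o b τ : F) * x (insert b τ) y := by
    intro x hx τ h3 h4 y
    rw [bd_apply]
    have h5 : a ∈ Finset.univ \ τ := by simp [h3]
    have h6 : b ∈ (Finset.univ \ τ).erase a := by simp [h4, Ne.symm hab]
    rw [← Finset.add_sum_erase _ _ h5, ← Finset.add_sum_erase _ _ h6, Finset.sum_eq_zero, add_zero]
    intro v hv
    simp only [Finset.mem_erase, Finset.mem_sdiff, Finset.mem_univ, true_and] at hv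
    have h7 : x (insert v τ) = 0 := by
      apply hx
      · simp only [Finset.mem_insert, not_or]
        exact ⟨Ne.symm hv.2.1, h3⟩
      · simp only [Finset.mem_insert, not_or]
        exact ⟨Ne.symm hv.1, h4⟩
    rw [h7, Pi.zero_apply, mul_zero]
  have hsg : ∀ (c : V) (τ : Finset V), (sg o c τ : F) * (sg o c τ : F) = 1 := by
    intro c τ
    unfold sg
    rw [← Int.cast_mul, ← pow_add, ← two_mul, pow_mul]
    norm_num
  have d3 : Module.finrank F ↥K ≤ 2 ^ Fintype.card V * fx F X a b := by
    have hfix : ∀ x ∈ K, ∀ τ, (if a ∉ τ ∧ b ∉ τ then x (insert a τ) else 0) ∈ Fix F X a b := by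
      rintro x ⟨⟨⟨hx1, hx2⟩, hx3⟩, hx4⟩ τ
      split_ifs with h
      · obtain ⟨h3, h4⟩ := h
        refine inf_le_Fix τ a b ⟨fun v hv y => hx2 _ v hv y, ?_⟩
        have h5 : ∀ y, (sg o a τ : F) * x (insert a τ) y +
            (sg o b τ : F) * x (insert b τ) y = 0 := by
          intro y
          rw [← hbd x hx4 τ h3 h4 y]
          have h6 : bd F o X.X x = 0 := hx3
          rw [h6]
          rfl
        have h7 : x (insert a τ) = (-(sg o a τ : F) * (sg o b τ : F)) • x (insert b τ) := by
          funext y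
          have h8 := h5 y
          have h9 := hsg a τ
          rw [Pi.smul_apply, smul_eq_mul]
          linear_combination (sg o a τ : F) * h8 - x (insert a τ) y * h9
        rw [h7]
        exact Submodule.smul_mem _ _ fun v hv y => hx2 _ v hv y
      · exact zero_mem _
    let ψ : ↥K →ₗ[F] (Finset V → ↥(Fix F X a b)) :=
      { toFun := fun x τ => ⟨if a ∉ τ ∧ b ∉ τ then x.1 (insert a τ) else 0, hfix x.1 x.2 τ⟩
        map_add' := by
          intro x y
          funext τ
          apply Subtype.ext
          show (if a ∉ τ ∧ b ∉ τ then (x.1 + y.1) (insert a τ) else 0) =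
            (if a ∉ τ ∧ b ∉ τ then x.1 (insert a τ) else 0) +
            (if a ∉ τ ∧ b ∉ τ then y.1 (insert a τ) else 0)
          split_ifs
          · rfl
          · rw [add_zero]
        map_smul' := by
          intro c x
          funext τ
          apply Subtype.ext
          show (if a ∉ τ ∧ b ∉ τ then (c • x.1) (insert a τ) else 0) =
            c • (if a ∉ τ ∧ b ∉ τ then x.1 (insert a τ) else 0)
          split_ifs
          · rfl
          · rw [smul_zero] }
    have hψ : Function.Injective ψ := by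
      rw [← LinearMap.ker_eq_bot, eq_bot_iff]
      intro x hx
      rw [Submodule.mem_bot]
      apply Subtype.ext
      have hx' : ψ x = 0 := hx
      obtain ⟨⟨⟨hx1, hx2⟩, hx3⟩, hx4⟩ := x.2
      have ha0 : ∀ τ, a ∉ τ → b ∉ τ → x.1 (insert a τ) = 0 := by
        intro τ h3 h4
        have h5 := congrArg Subtype.val (congrFun hx' τ)
        have h6 : (if a ∉ τ ∧ b ∉ τ then x.1 (insert a τ) else 0) = 0 := h5
        rwa [if_pos ⟨h3, h4⟩] at h6
      funext σ
      show x.1 σ = 0
      by_cases h3 : a ∈ σ
      · by_cases h4 : b ∈ σ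
        · by_contra h5
          exact hnc σ h3 h4 (hx1 σ h5).2.2
        · have h5 := ha0 (σ.erase a) (Finset.notMem_erase a σ)
            (fun h => h4 (Finset.mem_of_mem_erase h))
          rwa [Finset.insert_erase h3] at h5
      · by_cases h4 : b ∈ σ
        · have h5 : a ∉ σ.erase b := fun h => h3 (Finset.mem_of_mem_erase h)
          have h6 : b ∉ σ.erase b := Finset.notMem_erase b σ
          funext y
          have h7 := hbd x.1 hx4 (σ.erase b) h5 h6 y
          have h8 : bd F o X.X x.1 = 0 := hx3
          rw [h8, ha0 _ h5 h6, Finset.insert_erase h4, Pi.zero_apply, Pi.zero_apply, mul_zero,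
            zero_add] at h7
          have h9 := hsg b (σ.erase b)
          show x.1 σ y = 0
          linear_combination -(sg o b (σ.erase b) : F) * h7 - x.1 σ y * h9
        · exact hx4 σ h3 h4
    refine (LinearMap.finrank_le_finrank_of_injective hψ).trans (le_of_eq ?_)
    rw [Module.finrank_pi_fintype, Finset.sum_const, Finset.card_univ, Fintype.card_finset,
      smul_eq_mul]
    rfl
  have hbb := (chb F V adj o ho X.X X.ρ).1
  have hchb := (chb F V adj o ho X.X X.ρ).2
  have d4 : Module.finrank F ↥(LinearMap.ker g) ≤ Module.finrank F ↥Bd + Module.finrank F ↥K := by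
    have h3 : (LinearMap.ker g).map Z.subtype ≤ Bd ⊔ K := by
      rintro _ ⟨x, hx, rfl⟩
      have hx' := (hg x).1 hx
      show x.1 ∈ Bd ⊔ K
      obtain ⟨⟨hx1, hx2⟩, hx3⟩ := x.2
      -- split the middle component
      have h4 : ∀ σ, ∃ f1 ∈ Eg F X (insert a σ), ∃ f2 ∈ Eg F X (insert b σ),
          a ∉ σ → b ∉ σ → f1 + f2 = x.1 σ := by
        intro σ
        by_cases h5 : a ∉ σ ∧ b ∉ σ
        · obtain ⟨f1, hf1, f2, hf2, h6⟩ := Submodule.mem_sup.1 (hx' σ h5.1 h5.2)
          exact ⟨f1, hf1, f2, hf2, fun _ _ => h6⟩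
        · exact ⟨0, zero_mem _, 0, zero_mem _, fun h6 h7 => absurd ⟨h6, h7⟩ h5⟩
      choose f1 hf1 f2 hf2 hf using h4
      let w : Finset V → X.X → F := fun σ =>
        if a ∈ σ ∧ b ∉ σ ∧ x.1 (σ.erase a) ≠ 0 then (sg o a (σ.erase a) : F) • f1 (σ.erase a)
        else if b ∈ σ ∧ a ∉ σ ∧ x.1 (σ.erase b) ≠ 0 then
          (sg o b (σ.erase b) : F) • f2 (σ.erase b)
        else 0
      have hw : w ∈ Ch F adj X.ρ A (k + 1) := by
        constructor
        · intro σ hσ
          by_cases h5 : a ∈ σ ∧ b ∉ σ ∧ x.1 (σ.erase a) ≠ 0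
          · obtain ⟨h6, h7, h8⟩ := h5
            obtain ⟨g1, g2, g3⟩ := hx1 _ h8
            have g4 : ∀ v ∈ σ.erase a, v ∈ B := fun v hv => hmemB v (g2 v hv)
              (Finset.ne_of_mem_erase hv) (fun e => h7 (e ▸ Finset.mem_of_mem_erase hv))
            refine ⟨?_, ?_, ?_⟩
            · rw [← Finset.card_erase_add_one h6, g1]
            · intro v hv
              by_cases h9 : v = a
              · rw [h9]
                exact Set.mem_insert a _
              · exact g2 v (Finset.mem_erase.2 ⟨h9, hv⟩)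
            · have := hcl a (fun u hu => (hadj u hu).1) (σ.erase a) g4 g3
              rwa [Finset.insert_erase h6] at this
          · by_cases h6 : b ∈ σ ∧ a ∉ σ ∧ x.1 (σ.erase b) ≠ 0
            · obtain ⟨h6, h7, h8⟩ := h6
              obtain ⟨g1, g2, g3⟩ := hx1 _ h8
              have g4 : ∀ v ∈ σ.erase b, v ∈ B := fun v hv => hmemB v (g2 v hv)
                (fun e => h7 (e ▸ Finset.mem_of_mem_erase hv)) (Finset.ne_of_mem_erase hv)
              refine ⟨?_, ?_, ?_⟩
              · rw [← Finset.card_erase_add_one h6, g1]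
              · intro v hv
                by_cases h9 : v = b
                · rw [h9]
                  exact Set.mem_insert_of_mem a (Set.mem_insert b _)
                · exact g2 v (Finset.mem_erase.2 ⟨h9, hv⟩)
              · have := hcl b (fun u hu => (hadj u hu).2) (σ.erase b) g4 g3
                rwa [Finset.insert_erase h6] at this
            · exfalso
              apply hσ
              show (if _ then _ else _) = (0 : X.X → F)
              rw [if_neg h5, if_neg h6]
        · intro σ v hv y
          show (if _ then _ else _ : X.X → F) _ = - (if _ then _ else _ : X.X → F) _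
          split_ifs with h5 h6
          · have := hf1 (σ.erase a) v (by rwa [Finset.insert_erase h5.1]) y
            rw [Pi.smul_apply, Pi.smul_apply, this, smul_neg]
          · have := hf2 (σ.erase b) v (by rwa [Finset.insert_erase h6.1]) y
            rw [Pi.smul_apply, Pi.smul_apply, this, smul_neg]
          · rw [Pi.zero_apply, Pi.zero_apply, neg_zero]
      have hw0 : ∀ σ, a ∉ σ → b ∉ σ → w σ = 0 := by
        intro σ h5 h6
        show (if _ then _ else _) = (0 : X.X → F)
        rw [if_neg (fun h => h5 h.1), if_neg (fun h => h6 h.1)]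
      have hwx : ∀ σ, a ∉ σ → b ∉ σ → bd F o X.X w σ = x.1 σ := by
        intro σ h5 h6
        funext y
        rw [hbd w hw0 σ h5 h6 y]
        by_cases h7 : x.1 σ = 0
        · have h8 : w (insert a σ) = 0 := by
            show (if _ then _ else _) = (0 : X.X → F)
            rw [if_neg, if_neg]
            · exact fun h => h.2.1 (Finset.mem_insert_self a σ)
            · rw [Finset.erase_insert h5]
              exact fun h => h.2.2 h7
          have h9 : w (insert b σ) = 0 := by
            show (if _ then _ else _) = (0 : X.X → F)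
            rw [if_neg, if_neg]
            · rw [Finset.erase_insert h6]
              exact fun h => h.2.2 h7
            · exact fun h => h.2.1 (Finset.mem_insert_self b σ)
          rw [h8, h9, h7]
          simp
        · have h8 : w (insert a σ) = (sg o a σ : F) • f1 σ := by
            show (if _ then _ else _) = _
            rw [if_pos, Finset.erase_insert h5]
            rw [Finset.erase_insert h5]
            refine ⟨Finset.mem_insert_self a σ, ?_, h7⟩
            simp only [Finset.mem_insert, not_or]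
            exact ⟨Ne.symm hab, h6⟩
          have h9 : w (insert b σ) = (sg o b σ : F) • f2 σ := by
            show (if _ then _ else _) = _
            rw [if_neg, if_pos, Finset.erase_insert h6]
            · rw [Finset.erase_insert h6]
              refine ⟨Finset.mem_insert_self b σ, ?_, h7⟩
              simp only [Finset.mem_insert, not_or]
              exact ⟨hab, h5⟩
            · exact fun h => h.2.1 (Finset.mem_insert_self b σ)
          rw [h8, h9, Pi.smul_apply, Pi.smul_apply, smul_eq_mul, smul_eq_mul, ← mul_assoc,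
            ← mul_assoc, hsg, hsg, one_mul, one_mul, ← hf σ h5 h6, Pi.add_apply]
      rw [Submodule.mem_sup]
      refine ⟨bd F o X.X w, ⟨w, hw, rfl⟩, x.1 - bd F o X.X w, ?_, by abel⟩
      refine ⟨⟨?_, ?_⟩, ?_⟩
      · exact sub_mem ⟨hx1, hx2⟩ (hchb A k ⟨w, hw, rfl⟩)
      · show bd F o X.X (x.1 - bd F o X.X w) = 0
        have h5 : bd F o X.X x.1 = 0 := hx3
        rw [map_sub, hbb, h5, sub_zero]
      · intro σ h5 h6
        rw [Pi.sub_apply, hwx σ h5 h6, sub_self]
    have h4 : Module.finrank F ↥((LinearMap.ker g).map Z.subtype) =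
        Module.finrank F ↥(LinearMap.ker g) :=
      ((Submodule.equivMapOfInjective Z.subtype Z.injective_subtype _).finrank_eq).symm
    rw [← h4]
    refine (Submodule.finrank_mono h3).trans ?_
    have h5 := Submodule.finrank_sup_add_finrank_inf_eq Bd K
    omega
  unfold hh
  rw [← hZ, ← hBd, pow_succ]
  have : 2 ^ Fintype.card V * 2 * fx F X a b = 2 ^ Fintype.card V * fx F X a b +
    2 ^ Fintype.card V * fx F X a b := by ring
  omega

end Pool.LU
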