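import Pool.Agent.H99.LU.CStmts

/-!
Project LU, part C: assembly. The mod `p` Singer conjecture for the groups of closed aspherical
manifolds of odd dimension contradicts part A.
-/

set_option autoImplicit false

open scoped BigOperators Topology
open Filter Pool.H3.L2

noncomputable section

namespace Pool.LU

/-- the conclusion of `fpSinger_group` -/
def Sing (p : ℕ) [Fact p.Prime] : Prop :=
  ∀ (m : ℕ) (G : Type) [iG : Group G] [Infinite G], IsMfdGroup (2 * m + 1) G iG →
    ∀ C : BCx (GR G), C.IsRes → DualAll ℝ C (2 * m + 1) → DualAll (ZMod p) C (2 * m + 1) →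
    ∀ (c : WChain G) (j : ℕ),
    Tendsto (fun i => ((C.cover (c.N i)).betti (ZMod p) j : ℝ) / ((c.N i).index : ℝ))
      atTop (𝓝 0)

theorem SPoly.adj_symm {n : ℕ} {V : Type} (P : SPoly n V) (u v : V) (h : P.adj u v) :
    P.adj v u := by
  refine ⟨h.1.symm, ?_⟩
  rw [Set.pair_comm]
  exact h.2

theorem SPoly.adj_irrefl {n : ℕ} {V : Type} (P : SPoly n V) (v : V) : ¬ P.adj v v :=
  fun h => h.1 rfl

theorem cos_congr {V : Type} [Fintype V] [DecidableEq V] {adj : V → V → Prop} {W : Type} [Group W]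
    (F : Type) [Field F] (o : V → ℕ)
    (R : RA V adj W) (A : Set V) (k : ℕ) (N N' : Subgroup W) (e : N = N') (h1 : N ≤ R.χ.ker)
    (h2 : N.FiniteIndex) (h1' : N' ≤ R.χ.ker) (h2' : N'.FiniteIndex) :
    hh F o (cosX R N h1 h2) A k = hh F o (cosX R N' h1' h2') A k := by
  subst e
  rfl

theorem Ch_eq_bot (F : Type) [Field F] {V : Type} [Fintype V] [DecidableEq V] {X : Type}
    {adj : V → V → Prop} (ρ : V → X → X) (A : Set V) (k : ℕ)
    (h : ∀ σ : Finset V, Clq adj σ → (∀ v ∈ σ, v ∈ A) → σ.card ≠ k) :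
    Ch F adj ρ A k = ⊥ := by
  rw [eq_bot_iff]
  intro x hx
  rw [Submodule.mem_bot]
  funext σ
  by_contra h1
  obtain ⟨h2, h3, h4⟩ := hx.1 σ h1
  exact h σ h4 h3 h2

theorem hh_eq_zero (F : Type) [Field F] {V : Type} [Fintype V] [DecidableEq V]
    {adj : V → V → Prop} (o : V → ℕ) (X : XSet V adj) (A : Set V) (k : ℕ)
    (h : ∀ σ : Finset V, Clq adj σ → (∀ v ∈ σ, v ∈ A) → σ.card ≠ k) :
    hh F o X A k = 0 := by
  unfold hh
  rw [Ch_eq_bot F X.ρ A k h, bot_inf_eq, finrank_bot, Nat.zero_sub]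

/-- The case of the whole nerve in odd dimensions. -/
theorem odd_univ (p : ℕ) [Fact p.Prime] (hp : p ≠ 2) (sing : Sing p) (b1 : PartB1)
    (res : RESStmt) (dua : DUAStmt) (idx : IDXStmt) (inf : INFStmt) (dim : DIMStmt) (m : ℕ)
    (V : Type) [Fintype V] [DecidableEq V] (P : SPoly (2 * m + 1) V) (W : Type) [Group W]
    (R : RA V P.adj W) (hP : P.Good) (o : V → ℕ) (ho : Function.Injective o) (c : NChain R)
    (k : ℕ) : Tendsto (fun i => (hh (ZMod p) o (c.X i) Set.univ k : ℝ) / ((c.N i).index : ℝ))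
      atTop (𝓝 0) := by
  classical
  obtain ⟨d1, d2, -⟩ := dim _ V P hP
  obtain ⟨u, v, huv, hadj⟩ := d2 (by omega)
  haveI : Infinite R.χ.ker := inf V P.adj P.adj_symm W R u v huv hadj
  obtain ⟨C, hC, hC'⟩ := res V P.adj P.adj_symm P.adj_irrefl W R o ho
  obtain ⟨i1, i2, i3⟩ := idx V P.adj P.adj_symm W R
  have hdual : ∀ (F : Type) [Field F], (2 : F) ≠ 0 → DualAll F C (2 * m + 1) := by
    intro F _ hF N _ _
    obtain ⟨g1, g2⟩ := i2 N inferInstance
    refine ⟨fun a b hab => ?_, fun a ha => ?_⟩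
    · rw [hC' N g2 g1 F a, hC' N g2 g1 F b]
      exact dua _ V P hP _ F hF o ho a b hab
    · rw [hC' N g2 g1 F a]
      refine hh_eq_zero F o _ _ _ fun σ hσ _ h => ?_
      have := d1 σ hσ
      omega
  have hp2 : (2 : ZMod p) ≠ 0 := by
    intro h
    have h1 : ((2 : ℕ) : ZMod p) = 0 := by exact_mod_cast h
    rw [ZMod.natCast_eq_zero_iff] at h1
    have h2 := (Nat.prime_dvd_prime_iff_eq (Fact.out : p.Prime) Nat.prime_two).1 h1
    exact hp h2
  have hfin := c.fin
  have hnorm := c.normal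
  let c' : WChain R.χ.ker :=
    { N := fun i => (c.N i).subgroupOf R.χ.ker
      normal := fun i => (hnorm i).subgroupOf _
      fin := fun i => by
        haveI := hfin i
        infer_instance
      anti := fun i j hij => Subgroup.comap_mono (c.anti hij)
      inf := by
        have h1 : (⨅ i, (c.N i).subgroupOf R.χ.ker) = (⨅ i, c.N i).subgroupOf R.χ.ker := by
          unfold Subgroup.subgroupOf
          rw [Subgroup.comap_iInf]
        rw [h1, c.inf]
        exact Subgroup.bot_subgroupOf _ }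
  have h1 := sing m R.χ.ker (b1 _ V P W R hP) C hC (hdual ℝ two_ne_zero) (hdual (ZMod p) hp2) c' k
  have h2 : ∀ i, (hh (ZMod p) o (c.X i) Set.univ k : ℝ) / ((c.N i).index : ℝ) =
      (((C.cover (c'.N i)).betti (ZMod p) k : ℝ) / ((c'.N i).index : ℝ)) *
        ((2 : ℝ) ^ Fintype.card V)⁻¹ := by
    intro i
    haveI := hfin i
    have e0 : (c'.N i).map R.χ.ker.subtype = c.N i := by
      show ((c.N i).subgroupOf R.χ.ker).map R.χ.ker.subtype = c.N i
      rw [Subgroup.subgroupOf_map_subtype]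
      exact inf_eq_left.2 (c.le i)
    obtain ⟨g1, g2⟩ := i2 (c'.N i) inferInstance
    have e1 : (C.cover (c'.N i)).betti (ZMod p) k = hh (ZMod p) o (c.X i) Set.univ k := by
      rw [hC' (c'.N i) g2 g1 (ZMod p) k]
      exact cos_congr (ZMod p) o R Set.univ k _ _ e0 _ _ _ _
    obtain ⟨-, e2⟩ := i3 (c.N i) (c.le i) (c.fin i)
    have e3 : ((c.N i).index : ℝ) = 2 ^ Fintype.card V * ((c'.N i).index : ℝ) := by
      rw [e2]
      push_cast
      rfl
    rw [e1, e3]
    rw [div_mul_eq_mul_div, mul_comm ((2 : ℝ) ^ Fintype.card V), ← div_div, div_eq_mul_inv (_ / _)]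
    ring
  have h3 := h1.mul_const (((2 : ℝ) ^ Fintype.card V)⁻¹)
  rw [zero_mul] at h3
  exact h3.congr fun i => (h2 i).symm

theorem van_transport (p : ℕ) [Fact p.Prime] (n : ℕ) (hV : Van p n) (V : Type) [Fintype V]
    [DecidableEq V] (P : SPoly n V) (hP : P.Good) (adj : V → V → Prop) (e : P.adj = adj)
    (W : Type) [Group W] (R : RA V adj W) (o : V → ℕ) (ho : Function.Injective o) (c : NChain R)
    (A : Set V) (k : ℕ) (hk : n < 2 * k) :
    Tendsto (fun i => (hh (ZMod p) o (c.X i) A k : ℝ) / ((c.N i).index : ℝ)) atTop (𝓝 0) := by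
  subst e
  exact hV V P W R hP o ho c A k hk

/-- The subcomplexes of links. -/
theorem fac_lemma (fct : FCTStmt) (spc : SPCStmt) (dec : DECStmt) (p : ℕ) [Fact p.Prime] (n : ℕ)
    (hV : Van p n) (V : Type) [Fintype V] [DecidableEq V] (P : SPoly (n + 1) V) (hP : P.Good)
    (W : Type) [Group W] (R : RA V P.adj W) (o : V → ℕ) (ho : Function.Injective o)
    (c : NChain R) (v : V) (A : Set V) (hA : A ⊆ Lk P.adj v) (k : ℕ) (hk : n < 2 * k) :
    Tendsto (fun i => (hh (ZMod p) o (c.X i) A k : ℝ) / ((c.N i).index : ℝ)) atTop (𝓝 0) := by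
  classical
  obtain ⟨P', hP', hadj⟩ := fct n V P hP v
  obtain ⟨R', h1, h2⟩ := spc V P.adj P.adj_symm W R (Lk P.adj v)
  obtain ⟨c', hc'⟩ := dec V P.adj P.adj_symm W R (Lk P.adj v) R' h1 h2 c
  letI : Fintype {u // u ∈ Lk P.adj v} := Fintype.ofFinite _
  have h3 := van_transport p n hV {u // u ∈ Lk P.adj v} P' hP' _ hadj _ R'
    (fun u => o u.1) (fun a b hab => Subtype.ext (ho hab)) c' (Subtype.val ⁻¹' A) k hk
  refine h3.congr fun i => ?_
  have h4 := hc' (ZMod p) o A ho hA k i
  have h5 : ((c.N i).index : ℝ) ≠ 0 := by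
    exact_mod_cast (c.fin i).index_ne_zero
  have h6 : ((c'.N i).index : ℝ) ≠ 0 := by
    exact_mod_cast (c'.fin i).index_ne_zero
  rw [div_eq_div_iff h6 h5]
  exact_mod_cast h4.symm

theorem sq0 {f g : ℕ → ℝ} (hf : ∀ i, 0 ≤ f i) (h : ∀ i, f i ≤ g i)
    (hg : Tendsto g atTop (𝓝 0)) : Tendsto f atTop (𝓝 0) :=
  squeeze_zero hf h hg

theorem idx_pos {V : Type} [DecidableEq V] {adj : V → V → Prop} {W : Type} [Group W]
    {R : RA V adj W} (c : NChain R) (i : ℕ) : (0 : ℝ) < ((c.N i).index : ℝ) := by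
  exact_mod_cast Nat.pos_of_ne_zero (c.fin i).index_ne_zero

/-- If `a i ≤ b i + d i` and `b`, `d` are small then `a` is small. -/
theorem small_add {V : Type} [DecidableEq V] {adj : V → V → Prop} {W : Type} [Group W]
    {R : RA V adj W} (c : NChain R) {a b d : ℕ → ℕ} (h : ∀ i, a i ≤ b i + d i)
    (hb : Tendsto (fun i => (b i : ℝ) / ((c.N i).index : ℝ)) atTop (𝓝 0))
    (hd : Tendsto (fun i => (d i : ℝ) / ((c.N i).index : ℝ)) atTop (𝓝 0)) :
    Tendsto (fun i => (a i : ℝ) / ((c.N i).index : ℝ)) atTop (𝓝 0) := by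
  have h1 := hb.add hd
  rw [add_zero] at h1
  refine sq0 (fun i => by positivity) (fun i => ?_) h1
  rw [← add_div]
  refine div_le_div_of_nonneg_right ?_ (idx_pos c i).le
  exact_mod_cast h i

theorem van_zero (p : ℕ) [Fact p.Prime] (dim : DIMStmt) : Van p 0 := by
  intro V _ _ P W _ R hP o ho c A k hk
  have hV : IsEmpty V := (dim 0 V P hP).2.2 rfl
  have h1 : ∀ i, hh (ZMod p) o (c.X i) A k = 0 := by
    intro i
    refine hh_eq_zero _ o _ _ _ fun σ _ _ h => ?_
    have h2 : σ = ∅ := by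
      refine Finset.eq_empty_of_forall_notMem fun x _ => hV.elim x
    rw [h2, Finset.card_empty] at h
    omega
  simp only [h1, Nat.cast_zero, zero_div]
  exact tendsto_const_nhds

theorem van_even (p : ℕ) [Fact p.Prime] (hp : p ≠ 2) (seq : SEQStmt) (fct : FCTStmt)
    (spc : SPCStmt) (dec : DECStmt) (n : ℕ) (hn : Even (n + 1)) (hV : Van p n) :
    Van p (n + 1) := by
  classical
  intro V _ _ P W _ R hP o ho c A k hk
  have hp2 : (2 : ZMod p) ≠ 0 := by
    intro h
    have h1 : ((2 : ℕ) : ZMod p) = 0 := by exact_mod_cast h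
    rw [ZMod.natCast_eq_zero_iff] at h1
    have h2 := (Nat.prime_dvd_prime_iff_eq (Fact.out : p.Prime) Nat.prime_two).1 h1
    exact hp h2
  obtain ⟨l, rfl⟩ : ∃ l, k = l + 1 := ⟨k - 1, by omega⟩
  have hl : n < 2 * l := by
    obtain ⟨q, hq⟩ := hn
    omega
  have hfinA : A.Finite := A.toFinite
  induction A, hfinA using Set.Finite.induction_on with
  | empty =>
    have h1 : ∀ i, hh (ZMod p) o (c.X i) ∅ (l + 1) = 0 := by
      intro i
      refine hh_eq_zero _ o _ _ _ fun σ _ h2 h => ?_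
      have h3 : σ = ∅ := by
        refine Finset.eq_empty_of_forall_notMem fun x hx => h2 x hx
      rw [h3, Finset.card_empty] at h
      omega
    simp only [h1, Nat.cast_zero, zero_div]
    exact tendsto_const_nhds
  | @insert v A hv _ ih =>
    refine small_add c (fun i => (seq (ZMod p) hp2 V P.adj P.adj_symm (c.X i) o ho A v hv l).2.1) ih
      ?_
    exact fac_lemma fct spc dec p n hV V P hP W R o ho c v _ Set.inter_subset_right l hl

theorem van_odd (p : ℕ) [Fact p.Prime] (hp : p ≠ 2) (sing : Sing p) (b1 : PartB1)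
    (res : RESStmt) (dua : DUAStmt) (idx : IDXStmt) (inf : INFStmt) (dim : DIMStmt)
    (seq : SEQStmt) (fct : FCTStmt) (spc : SPCStmt) (dec : DECStmt) (m : ℕ)
    (hV : Van p (2 * m)) : Van p (2 * m + 1) := by
  classical
  intro V _ _ P W _ R hP o ho c A k hk
  have hp2 : (2 : ZMod p) ≠ 0 := by
    intro h
    have h1 : ((2 : ℕ) : ZMod p) = 0 := by exact_mod_cast h
    rw [ZMod.natCast_eq_zero_iff] at h1
    have h2 := (Nat.prime_dvd_prime_iff_eq (Fact.out : p.Prime) Nat.prime_two).1 h1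
    exact hp h2
  have key : ∀ S : Finset V, Tendsto (fun i => (hh (ZMod p) o (c.X i) ((↑S : Set V)ᶜ) k : ℝ) /
      ((c.N i).index : ℝ)) atTop (𝓝 0) := by
    intro S
    induction S using Finset.induction_on with
    | empty =>
      rw [Finset.coe_empty, Set.compl_empty]
      exact odd_univ p hp sing b1 res dua idx inf dim m V P W R hP o ho c k
    | @insert v S hv ih =>
      have h1 : insert v ((↑(insert v S) : Set V)ᶜ) = ((↑S : Set V)ᶜ) := by
        ext x
        simp only [Set.mem_insert_iff, Finset.coe_insert, Set.mem_compl_iff, Finset.mem_coe,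
          not_or]
        constructor
        · rintro (rfl | ⟨_, h⟩)
          · exact hv
          · exact h
        · intro h
          by_cases hx : x = v
          · exact Or.inl hx
          · exact Or.inr ⟨hx, h⟩
      have h2 : v ∉ ((↑(insert v S) : Set V)ᶜ) := by
        simp
      have h3 := fun i => (seq (ZMod p) hp2 V P.adj P.adj_symm (c.X i) o ho _ v h2 k).2.2.1
      rw [h1] at h3
      refine small_add c h3 ih ?_
      exact fac_lemma fct spc dec p _ hV V P hP W R o ho c v _ Set.inter_subset_right k (by omega)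
  have h4 := key A.toFinite.toFinsetᶜ
  rw [Finset.coe_compl, compl_compl, Set.Finite.coe_toFinset] at h4
  exact h4

theorem van_all (p : ℕ) [Fact p.Prime] (hp : p ≠ 2) (sing : Sing p) (b1 : PartB1)
    (res : RESStmt) (dua : DUAStmt) (idx : IDXStmt) (inf : INFStmt) (dim : DIMStmt)
    (seq : SEQStmt) (fct : FCTStmt) (spc : SPCStmt) (dec : DECStmt) (n : ℕ) : Van p n := by
  induction n with
  | zero => exact van_zero p dim
  | succ n ih =>
    rcases Nat.even_or_odd (n + 1) with h | h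
    · exact van_even p hp seq fct spc dec n h ih
    · obtain ⟨m, hm⟩ := h
      have h1 : n = 2 * m := by omega
      subst h1
      exact van_odd p hp sing b1 res dua idx inf dim seq fct spc dec m ih

end Pool.LU
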