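import Pool.Agent.H99.LU.ResZ
import Pool.Agent.H81.LU.YStmts

/-!
Project LU, part Y: module RESZ.
-/

set_option autoImplicit false

open Pool.H3.L2

noncomputable section

namespace Pool.LU

/-- RESZ -/
theorem resz : RESZStmt := by
  intro V _ _ adj hs hi W _ R o ho
  obtain ⟨g, hg⟩ := exists_sec R
  refine ⟨cubC hs hi R o ho g hg, cubC_isRes hs hi R o ho g hg, ?_⟩
  intro N _ _ h1 h2 F _
  exact re3K F R o g hg N h1 h2

end Pool.LU
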