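import Pool.Agent.H99.LU.Orient
import Pool.Agent.H99.LU.LES
import Pool.Agent.H99.LU.SUS
import Pool.Agent.H3.LU.Final
import Pool.Agent.H22.LU.DUA
import Pool.Agent.H88.LU.GEO
import Pool.Agent.H41.LU.SphLev
import Pool.Agent.H84.LU.Oct
import Pool.Agent.H13.LU.PartAMain

/-!
Project LU: the question Q1 for orientable manifolds, from part Y.
-/

set_option autoImplicit false

open scoped BigOperators Topology
open MeasureTheory Filter Pool.H3.L2 Pool.H29.L2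

noncomputable section

namespace Pool.LU

theorem dua_main : DUAStmt := dua (sph geo exa eps)

theorem res_main : RESStmt := resRea raf chb (re1 chb raf) (re2 raf) (re3 raf)

/-- The kernel of `χ` has homology in the top degree. -/
theorem hTop_ker {n : ℕ} {V : Type} [Fintype V] [DecidableEq V] (P : SPoly n V) (hP : P.Good)
    {W : Type} [Group W] (R : RA V P.adj W) : HTop n R.χ.ker inferInstance := by
  classical
  obtain ⟨d1, -, -⟩ := dim _ V P hP
  let o : V → ℕ := fun v => (Fintype.equivFin V v : ℕ)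
  have ho : Function.Injective o := fun a b h => (Fintype.equivFin V).injective (Fin.ext h)
  obtain ⟨C, hC, hC'⟩ := res_main V P.adj P.adj_symm P.adj_irrefl W R o ho
  obtain ⟨i1, i2, i3⟩ := idx V P.adj P.adj_symm W R
  refine hTop_of_dual C hC ?_
  intro N _ _
  obtain ⟨g1, g2⟩ := i2 N inferInstance
  refine ⟨fun a b hab => ?_, fun a ha => ?_⟩
  · rw [hC' N g2 g1 ℝ a, hC' N g2 g1 ℝ b]
    exact dua_main _ V P hP _ ℝ two_ne_zero o ho a b hab
  · rw [hC' N g2 g1 ℝ a]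
    refine hh_eq_zero ℝ o _ _ _ fun σ hσ _ h => ?_
    have := d1 σ hσ
    omega

/-- The variant of part Y from the group of a manifold, with the orientation. -/
theorem exists_partR_or {k : ℕ} {G : Type} [iG : Group G] [Infinite G]
    (hG : IsMfdGroup (2 * k + 1) G iG) (C : BCx (GR G)) (hC : C.IsRes) (c : WChain G)
    (acyc : ∀ j, Tendsto (fun i => ((C.cover (c.N i)).betti ℝ j : ℝ) / ((c.N i).index : ℝ))
      atTop (𝓝 0)) (rho : RhoNe C) (hT : HTop (2 * k + 1) G iG) :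
    ∃ Y : PartR, Orient Y.Y := by
  obtain ⟨c', φ, hφ, h1⟩ := c.exists_strict (fun _ => True) (Eventually.frequently (by simp))
  have h2 : ∀ j, Tendsto (fun i => ((C.cover (c'.N i)).betti ℝ j : ℝ) / ((c'.N i).index : ℝ))
      atTop (𝓝 0) := by
    intro j
    rw [← tendsto_add_atTop_iff_nat 1]
    refine ((acyc j).comp hφ.tendsto_atTop).congr fun i => ?_
    simp only [Function.comp_apply, (h1 i).1]
  obtain ⟨M, hM⟩ := hG
  obtain ⟨⟨C, c, h3, h4, h5⟩, h6⟩ := hM (fun H iH => (letI := iH; ∃ (C : BCx (GR H))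
    (c : ResChain H), C.IsRes ∧
      (∀ j, Tendsto (fun i => ((C.cover (c.N i)).betti ℝ j : ℝ) / ((c.N i).index : ℝ))
      atTop (𝓝 0)) ∧ RhoNe C) ∧ HTop (2 * k + 1) H iH) ⟨⟨C, c', hC, h2, rho⟩, hT⟩
  exact ⟨⟨k, M, C, c, h3, h4, h5⟩, h6⟩

/-- Part Y from the group of a manifold, with the orientation. -/
theorem exists_partY_or {k : ℕ} {G : Type} [iG : Group G] [Infinite G]
    (hG : IsMfdGroup (2 * k + 1) G iG) (C : BCx (GR G)) (hC : C.IsRes) (c : WChain G)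
    (acyc : ∀ j, Tendsto (fun i => ((C.cover (c.N i)).betti ℝ j : ℝ) / ((c.N i).index : ℝ))
      atTop (𝓝 0)) (ε : ℝ) (hε : 0 < ε)
    (tors : ∃ᶠ i in atTop, ε * ((c.N i).index : ℝ) ≤ Real.log ((C.cover (c.N i)).torsOrd k))
    (hT : HTop (2 * k + 1) G iG) : ∃ Y : PartY, Orient Y.Y := by
  classical
  let P : Subgroup G → Prop := fun N => ∃ (h1 : N.Normal) (h2 : N.FiniteIndex),
    ε * (N.index : ℝ) ≤ Real.log ((C.cover N).torsOrd k)
  obtain ⟨c', φ, hφ, h1⟩ := c.exists_strict P (tors.mono fun i hi => ⟨c.normal i, c.fin i, hi⟩)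
  have h2 : ∀ j, Tendsto (fun i => ((C.cover (c'.N i)).betti ℝ j : ℝ) / ((c'.N i).index : ℝ))
      atTop (𝓝 0) := by
    intro j
    rw [← tendsto_add_atTop_iff_nat 1]
    refine ((acyc j).comp hφ.tendsto_atTop).congr fun i => ?_
    simp only [Function.comp_apply, (h1 i).1]
  have h3 : ∃ᶠ i in atTop, ε * ((c'.N i).index : ℝ) ≤
      Real.log ((C.cover (c'.N i)).torsOrd k) := by
    rw [frequently_atTop]
    intro i
    refine ⟨i + 1, by omega, ?_⟩
    obtain ⟨_, _, h4⟩ := (h1 i).2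
    simp only [(h1 i).1]
    exact h4
  obtain ⟨M, hM⟩ := hG
  obtain ⟨⟨C, c, h3, h4, h5⟩, h6⟩ := hM (fun H iH => (letI := iH; ∃ (C : BCx (GR H))
    (c : ResChain H), C.IsRes ∧
      (∀ j, Tendsto (fun i => ((C.cover (c.N i)).betti ℝ j : ℝ) / ((c.N i).index : ℝ))
      atTop (𝓝 0)) ∧ ∃ᶠ i in atTop, ε * ((c.N i).index : ℝ) ≤
        Real.log ((C.cover (c.N i)).torsOrd k)) ∧ HTop (2 * k + 1) H iH)
        ⟨⟨C, c', hC, h2, h3⟩, hT⟩
  exact ⟨⟨k, M, C, c, h3, h4, ε, hε, h5⟩, h6⟩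

/-- Part Y gives its variant, if Q1 holds for orientable manifolds. -/
theorem PartY.rho_ne_or (Y : PartY) (hY : Orient Y.Y) (hQ : Q1Or) {μ : ℕ → Measure ℝ}
    (h : (⟨Y.C, Y.c, Y.res⟩ : Dat Y.Y).Good μ) : Y.C.rho μ ≠ 0 := by
  intro h0
  have h1 := (⟨Y.C, Y.c, Y.res⟩ : Dat Y.Y).q1 (hQ Y.k Y.Y hY) h
  have h2 : ((-1 : ℝ) ^ Y.k * (⟨Y.C, Y.c, Y.res⟩ : Dat Y.Y).C.rho μ) = 0 := by
    have : (⟨Y.C, Y.c, Y.res⟩ : Dat Y.Y).C.rho μ = 0 := h0
    rw [this, mul_zero]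
  rw [h2] at h1
  have h3 : ∀ᶠ i in atTop, Real.log ((Y.C.cover (Y.c.N i)).torsOrd Y.k) /
      ((Y.c.N i).index : ℝ) < Y.ε := h1.eventually (gt_mem_nhds Y.pos)
  obtain ⟨i, hi, hi'⟩ := (Y.tors.and_eventually h3).exists
  have hx : (0 : ℝ) < ((Y.c.N i).index : ℝ) := by
    exact_mod_cast (⟨Y.C, Y.c, Y.res⟩ : Dat Y.Y).idx_pos i
  rw [div_lt_iff₀ hx] at hi'
  exact absurd hi (not_le.mpr hi')

theorem sing_of_or (hQ : Q1Or) (Y : PartR) (hY : Orient Y.Y) (p : ℕ) [Fact p.Prime] : Sing p :=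
  fun _ _ _ _ hG C hC hR hp c j => fpSingerOr_group hQ Y hY hG C hC hR p hp c j

theorem not_sing_main : ¬ Sing 3 := by
  obtain ⟨A⟩ := AMain.partA
  exact not_sing rax rsd oct sus' (seq chb les') fxs idx partB1_main res_main dua_main inf dim fct
    spc dec A

/-- Q1 is false for orientable manifolds (with the variant of part Y). -/
theorem not_q1Or_of_R (Y : PartR) (hY : Orient Y.Y) : ¬ Q1Or :=
  fun hQ => not_sing_main (sing_of_or hQ Y hY 3)

/-- Q1 is false for orientable manifolds (with part Y). -/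
theorem not_q1Or_of_Y (Y : PartY) (hY : Orient Y.Y) : ¬ Q1Or := by
  intro hQ
  refine not_q1Or_of_R ⟨Y.k, Y.Y, Y.C, Y.c, Y.res, Y.acyc, ?_⟩ hY hQ
  intro μ h1 h2
  exact Y.rho_ne_or hY hQ ⟨h1, h2⟩

theorem q1Or_of_q1 (hQ : Q1) : Q1Or := fun k M _ => Q1_iff.1 hQ k M

theorem not_q1_of_not_q1Or (h : ¬ Q1Or) : ¬ Q1 := fun hQ => h (q1Or_of_q1 hQ)

end Pool.LU
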