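import Pool.Agent.H99.LU.REA
import Pool.Agent.H72.LU.CHB
import Pool.Agent.H82.LU.RE1
import Pool.Agent.H7.LU.RE2
import Pool.Agent.H7.LU.RE3
import Pool.Agent.H22.LU.RAF

/-!
Project LU: the cubical resolution `cubC` of the kernel of `χ`, and the homology of the finite
regular covers over an arbitrary commutative ring.
-/

set_option autoImplicit false
set_option linter.unusedVariables false

open scoped BigOperators Topology
open Filter Pool.H3.L2

noncomputable section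

namespace Pool.LU

open RE

section

variable {V : Type} [Fintype V] [DecidableEq V] {adj : V → V → Prop}
  (hs : ∀ u v, adj u v → adj v u) (hi : ∀ v, ¬ adj v v) {W : Type} [Group W] (R : RA V adj W)
  (o : V → ℕ) (ho : Function.Injective o) (g : (V → ℤˣ) → W) (hg : ∀ ε, R.χ (g ε) = ε)

/-- there is a section of `χ` -/
theorem exists_sec : ∃ g : (V → ℤˣ) → W, ∀ ε, R.χ (g ε) = ε := by
  choose g h1 h2 using fun ε : V → ℤˣ => (raf V adj W R).ex Set.univ ε
    (fun v hv => absurd (Set.mem_univ v) hv)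
  exact ⟨g, h2⟩

include hs hi ho in
theorem cubD_mul : cubD R g hg o * cubD R g hg o = 0 := by
  obtain ⟨Φ, Φinj, Φrange, Φdeg, Φbd, Φaug⟩ := re2 raf V adj hs hi W R o ho g hg
  have hbb := (chb ℤ V adj o ho W (fun v w => w * R.s v)).1
  have hvv : ∀ v, Matrix.vecMul (Matrix.vecMul v (cubD R g hg o)) (cubD R g hg o) = 0 := by
    intro v
    apply Φinj
    rw [Φbd, Φbd, hbb, map_zero]
  funext s t
  have h1 := hvv (Pi.single s 1)
  rw [Matrix.vecMul_vecMul] at h1
  have h2 := rea_single (cubD R g hg o * cubD R g hg o) s t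
  rw [h1] at h2
  exact h2.symm

/-- The cubical resolution of `ℤ` over the group ring of the kernel of `χ`. -/
def cubC : BCx (GR R.χ.ker) where
  S := CubS adj
  deg := fun s => s.1.1.card
  D := cubD R g hg o
  deg_D := fun s t h => rea_deg R g hg o s t h
  D_D := cubD_mul hs hi R o ho g hg

theorem cubC_isRes : (cubC hs hi R o ho g hg).IsRes := by
  classical
  obtain ⟨Φ, Φinj, Φrange, Φdeg, Φbd, Φaug⟩ := re2 raf V adj hs hi W R o ho g hg
  have hae : ∀ s : CubS adj, s.1.1.card ≠ 0 → (if s.1.1 = ∅ then (1 : ℤ) else 0) = 0 := by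
    intro s h
    rw [if_neg]
    intro h1
    apply h
    rw [h1, Finset.card_empty]
  have haug : ∀ v : CubS adj → GR R.χ.ker,
      (∑ s : CubS adj, aug (v s) * (if s.1.1 = ∅ then (1 : ℤ) else 0)) = ∑ᶠ w, Φ v ∅ w := by
    intro v
    rw [← Φaug]
    refine Finset.sum_congr rfl fun s _ => ?_
    split_ifs <;> simp
  have h00 : ∃ v : CubS adj → GR R.χ.ker,
      (∑ s : CubS adj, aug (v s) * (if s.1.1 = ∅ then (1 : ℤ) else 0)) = 1 := by
    let s0 : CubS adj := ⟨(∅, 1), fun u hu => absurd hu (Finset.notMem_empty u), fun v _ => rfl⟩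
    refine ⟨Pi.single s0 1, ?_⟩
    rw [Finset.sum_eq_single s0]
    · rw [Pi.single_eq_same, if_pos rfl, mul_one]
      unfold aug
      rw [MonoidAlgebra.one_def]
      show (Finsupp.single _ _).sum _ = _
      rw [Finsupp.sum_single_index rfl]
    · intro s _ hs'
      rw [Pi.single_eq_of_ne hs']
      have : aug (0 : GR R.χ.ker) = 0 := by
        unfold aug
        rfl
      rw [this, zero_mul]
    · intro h
      exact absurd (Finset.mem_univ _) h
  have hres : ∀ v : CubS adj → GR R.χ.ker, Matrix.vecMul v (cubD R g hg o) = 0 →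
      (∑ s : CubS adj, aug (v s) * (if s.1.1 = ∅ then (1 : ℤ) else 0)) = 0 →
      ∃ w, Matrix.vecMul w (cubD R g hg o) = v := by
    intro v h1 h2
    have h3 : bd ℤ o W (Φ v) = 0 := by
      rw [← Φbd, h1, map_zero]
    have h4 : ∑ᶠ w, Φ v ∅ w = 0 := by
      rw [← haug]
      exact h2
    have h5 := (Φrange (Φ v)).1 ⟨v, rfl⟩
    obtain ⟨y, hy1, hy2, hy3⟩ := re1 chb raf V adj hs hi W R o ho (Φ v) h5.1 h5.2 h3 h4
    obtain ⟨w, rfl⟩ := (Φrange y).2 ⟨hy1, hy2⟩
    refine ⟨w, ?_⟩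
    apply Φinj
    rw [Φbd, hy3]
  have hcyc : ∀ s : CubS adj, (∑ t : CubS adj, aug (cubD R g hg o s t) *
      (if t.1.1 = ∅ then (1 : ℤ) else 0)) = 0 := by
    intro s
    have h1 := haug (Matrix.vecMul (Pi.single s 1) (cubD R g hg o))
    rw [Φbd, bd_apply_zero_of_allCh R o _ ((Φrange _).1 ⟨_, rfl⟩).1
      ((Φrange _).1 ⟨_, rfl⟩).2] at h1
    refine Eq.trans (Finset.sum_congr rfl fun t _ => ?_) h1
    rw [rea_single]
  exact ⟨fun s : CubS adj => if s.1.1 = ∅ then 1 else 0, hae, hcyc, h00, hres⟩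

end

section XH

variable (K : Type) [CommRing K] {V : Type} [Fintype V] [DecidableEq V] {adj : V → V → Prop}
  (o : V → ℕ) (X : XSet V adj) (A : Set V) (k : ℕ)

/-- The homology with coefficients in `K` in degree `k` of the complex of the full subcomplex on
`A`. -/
abbrev XH : Type := ↥(Ch K adj X.ρ A k ⊓ LinearMap.ker (bd K o X.X)) ⧸
  ((Ch K adj X.ρ A (k + 1)).map (bd K o X.X)).submoduleOf
    (Ch K adj X.ρ A k ⊓ LinearMap.ker (bd K o X.X))

end XH

section

variable {V : Type} [Fintype V] [DecidableEq V] {adj : V → V → Prop} {K : Type} [CommRing K]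
    (B : BCx K) (X : XSet V adj) (o : V → ℕ) (Ψ : (B.S → K) →ₗ[K] (Finset V → X.X → K))
    (Ψinj : Function.Injective Ψ) (Ψrange : ∀ x, x ∈ LinearMap.range Ψ ↔ AllCh adj X.ρ x)
    (Ψdeg : ∀ v k, (∀ s, B.deg s ≠ k → v s = 0) ↔ ∀ σ, Ψ v σ ≠ 0 → σ.card = k)
    (Ψbd : ∀ v, Ψ (Matrix.vecMul v B.D) = bd K o X.X (Ψ v)) (k : ℕ)

theorem mem_Ch_iff (x : Finset V → X.X → K) : x ∈ Ch K adj X.ρ Set.univ k ↔
      AllCh adj X.ρ x ∧ ∀ σ, x σ ≠ 0 → σ.card = k := by
  constructor
  · rintro ⟨g1, g2⟩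
    exact ⟨⟨fun σ hσ => (g1 σ hσ).2.2, g2⟩, fun σ hσ => (g1 σ hσ).1⟩
  · rintro ⟨⟨g1, g2⟩, g3⟩
    exact ⟨fun σ hσ => ⟨g3 σ hσ, fun v _ => Set.mem_univ v, g1 σ hσ⟩, g2⟩

include Ψinj Ψrange Ψdeg Ψbd in
theorem map_Zk : (B.Zk k).map Ψ = Ch K adj X.ρ Set.univ k ⊓ LinearMap.ker (bd K o X.X) := by
  ext x
  constructor
  · rintro ⟨v, ⟨hv1, hv2⟩, rfl⟩
    refine ⟨(mem_Ch_iff X _ _).2 ⟨(Ψrange _).1 ⟨v, rfl⟩, (Ψdeg v k).1 hv1⟩, ?_⟩
    show bd K o X.X (Ψ v) = 0
    rw [← Ψbd, hv2, map_zero]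
  · rintro ⟨hx1, hx2⟩
    obtain ⟨hx3, hx4⟩ := (mem_Ch_iff X _ _).1 hx1
    obtain ⟨v, rfl⟩ := (Ψrange x).2 hx3
    refine ⟨v, ⟨(Ψdeg v k).2 hx4, ?_⟩, rfl⟩
    apply Ψinj
    rw [map_zero]
    exact (Ψbd v).trans hx2

include Ψrange Ψdeg Ψbd in
theorem map_Bk : (B.Bk k).map Ψ = (Ch K adj X.ρ Set.univ (k + 1)).map (bd K o X.X) := by
  ext x
  constructor
  · rintro ⟨_, ⟨w, hw, rfl⟩, rfl⟩
    exact ⟨Ψ w, (mem_Ch_iff X _ _).2 ⟨(Ψrange _).1 ⟨w, rfl⟩, (Ψdeg w (k + 1)).1 hw⟩, (Ψbd w).symm⟩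
  · rintro ⟨y, hy, rfl⟩
    obtain ⟨hy3, hy4⟩ := (mem_Ch_iff X _ _).1 hy
    obtain ⟨w, rfl⟩ := (Ψrange y).2 hy3
    exact ⟨_, ⟨w, (Ψdeg w (k + 1)).2 hy4, rfl⟩, Ψbd w⟩

include Ψinj Ψrange Ψdeg Ψbd in
/-- An isomorphism of complexes gives an isomorphism of homology. -/
theorem hk_equiv_XH : Nonempty (B.Hk k ≃ₗ[K] XH K o X Set.univ k) := by
  have hZ := map_Zk B X o Ψ Ψinj Ψrange Ψdeg Ψbd k
  have hB := map_Bk B X o Ψ Ψrange Ψdeg Ψbd k
  let f : ↥(B.Zk k) ≃ₗ[K] ↥(Ch K adj X.ρ Set.univ k ⊓ LinearMap.ker (bd K o X.X)) :=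
    (Submodule.equivMapOfInjective Ψ Ψinj (B.Zk k)).trans (LinearEquiv.ofEq _ _ hZ)
  have hf : ∀ v, ((f v : _) : Finset V → X.X → K) = Ψ v.1 := fun v => rfl
  refine ⟨Submodule.Quotient.equiv _ _ f ?_⟩
  ext x
  rw [Submodule.mem_map]
  constructor
  · rintro ⟨v, hv, rfl⟩
    show ((f v : _) : Finset V → X.X → K) ∈ (Ch K adj X.ρ Set.univ (k + 1)).map (bd K o X.X)
    rw [hf, ← hB]
    exact ⟨v.1, hv, rfl⟩
  · intro hx
    have hx' : (x : Finset V → X.X → K) ∈ (Ch K adj X.ρ Set.univ (k + 1)).map (bd K o X.X) := hx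
    rw [← hB] at hx'
    obtain ⟨v, hv, hvx⟩ := hx'
    refine ⟨f.symm x, ?_, f.apply_symm_apply x⟩
    show ((f.symm x : _) : B.S → K) ∈ B.Bk k
    have h1 : ((f.symm x : _) : B.S → K) = v := by
      apply Ψinj
      rw [← hf, f.apply_symm_apply, hvx]
    rw [h1]
    exact hv

end

section

variable {V : Type} [Fintype V] [DecidableEq V] {adj : V → V → Prop} {W : Type} [Group W]
  {R : RA V adj W} {g : (V → ℤˣ) → W} {hg : ∀ ε, R.χ (g ε) = ε}
  {N : Subgroup R.χ.ker} [N.Normal] [N.FiniteIndex]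

theorem coeff_vecMul3K (F : Type) [CommRing F] (o : V → ℕ) [Fintype (R.χ.ker ⧸ N)]
    (v : CubS adj × (R.χ.ker ⧸ N) → F) (t : CubS adj) (q : R.χ.ker ⧸ N) :
    Matrix.vecMul v ((regM (QuotientGroup.mk' N) (cubD R g hg o)).map (Int.castRingHom F)) (t, q) =
    ∑ s : CubS adj, ∑ u ∈ s.1.1, if t.1.1 = s.1.1.erase u then
      ((sg o u (s.1.1.erase u) : ℤ) : F) *
      ((if t.1.2 = s.1.2 then v (s, q) else 0) -
       (if t.1.2 = s.1.2 * Pi.mulSingle u (-1) then
        v (s, q * (QuotientGroup.mk (tr R g hg s.1.2 u)⁻¹ : R.χ.ker ⧸ N)) else 0)) else 0 := by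
  classical
  have h0 : Matrix.vecMul v ((regM (QuotientGroup.mk' N) (cubD R g hg o)).map
      (Int.castRingHom F)) (t, q) = ∑ s : CubS adj, ∑ a : R.χ.ker ⧸ N, v (s, a) *
      (((MonoidAlgebra.mapDomain (QuotientGroup.mk' N) (cubD R g hg o s t)).coeff (a⁻¹ * q) : ℤ) : F) := by
    rw [Matrix.vecMul, dotProduct, Fintype.sum_prod_type]
    rfl
  rw [h0]
  apply Finset.sum_congr rfl
  intro s _
  have hmap : ∀ x : GR R.χ.ker, MonoidAlgebra.mapDomain (QuotientGroup.mk' N) x =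
      MonoidAlgebra.mapDomainRingHom ℤ (QuotientGroup.mk' N) x := fun _ => rfl
  have h3 : ∀ b : R.χ.ker ⧸ N,
      (MonoidAlgebra.mapDomain (QuotientGroup.mk' N) (cubD R g hg o s t)).coeff b =
      ∑ u ∈ s.1.1, if t.1.1 = s.1.1.erase u then (sg o u (s.1.1.erase u) : ℤ) *
      ((if t.1.2 = s.1.2 then (if b = 1 then (1 : ℤ) else 0) else 0) -
       (if t.1.2 = s.1.2 * Pi.mulSingle u (-1) then
        (if b = QuotientGroup.mk (tr R g hg s.1.2 u) then (1 : ℤ) else 0) else 0)) else 0 := by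
    intro b
    have h1 : ∀ (ι : Type) (T : Finset ι) (f : ι → MonoidAlgebra ℤ (R.χ.ker ⧸ N)),
        (∑ i ∈ T, f i).coeff b = ∑ i ∈ T, (f i).coeff b := by
      intro ι T f
      rw [MonoidAlgebra.coeff_sum, Finsupp.finsetSum_apply]
    unfold cubD
    rw [hmap, map_sum, h1]
    apply Finset.sum_congr rfl
    intro u _
    by_cases hA : t.1.1 = s.1.1.erase u
    · rw [if_pos hA, if_pos hA, map_zsmul, map_sub, MonoidAlgebra.coeff_smul,
        Finsupp.smul_apply, MonoidAlgebra.coeff_sub, Finsupp.sub_apply, smul_eq_mul]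
      congr 1
      congr 1
      · by_cases hB : t.1.2 = s.1.2
        · rw [if_pos hB, if_pos hB, map_one, MonoidAlgebra.one_def, MonoidAlgebra.coeff_single,
            Finsupp.single_apply]
          by_cases hb : b = 1
          · rw [if_pos hb, if_pos hb.symm]
          · rw [if_neg hb, if_neg (fun h => hb h.symm)]
        · rw [if_neg hB, if_neg hB, map_zero]; rfl
      · by_cases hC : t.1.2 = s.1.2 * Pi.mulSingle u (-1)
        · rw [if_pos hC, if_pos hC, ← hmap, MonoidAlgebra.mapDomain_single,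
            MonoidAlgebra.coeff_single, Finsupp.single_apply]
          by_cases hb : b = QuotientGroup.mk (tr R g hg s.1.2 u)
          · rw [if_pos hb]; exact if_pos hb.symm
          · rw [if_neg hb]; exact if_neg (fun h => hb h.symm)
        · rw [if_neg hC, if_neg hC, map_zero]; rfl
    · rw [if_neg hA, if_neg hA, map_zero]; rfl
  have h4 : ∀ a : R.χ.ker ⧸ N, v (s, a) *
      (((MonoidAlgebra.mapDomain (QuotientGroup.mk' N) (cubD R g hg o s t)).coeff (a⁻¹ * q) : ℤ) : F) =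
      ∑ u ∈ s.1.1, if t.1.1 = s.1.1.erase u then ((sg o u (s.1.1.erase u) : ℤ) : F) *
      ((if t.1.2 = s.1.2 then (if a = q then v (s, a) else 0) else 0) -
       (if t.1.2 = s.1.2 * Pi.mulSingle u (-1) then
        (if a = q * (QuotientGroup.mk (tr R g hg s.1.2 u)⁻¹ : R.χ.ker ⧸ N) then v (s, a) else 0)
        else 0)) else 0 := by
    intro a
    rw [h3, Int.cast_sum, Finset.mul_sum]
    apply Finset.sum_congr rfl
    intro u _
    by_cases hA : t.1.1 = s.1.1.erase u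
    · rw [if_pos hA, if_pos hA, Int.cast_mul, ← mul_assoc, mul_comm (v (s, a)), mul_assoc]
      congr 1
      rw [Int.cast_sub, mul_sub]
      congr 1
      · by_cases hB : t.1.2 = s.1.2
        · rw [if_pos hB, if_pos hB]
          by_cases hb : a = q
          · rw [if_pos hb, if_pos (by rw [hb, inv_mul_cancel]), Int.cast_one, mul_one]
          · rw [if_neg hb, if_neg (fun h => hb (inv_mul_eq_one.1 h)), Int.cast_zero, mul_zero]
        · rw [if_neg hB, if_neg hB, Int.cast_zero, mul_zero]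
      · by_cases hC : t.1.2 = s.1.2 * Pi.mulSingle u (-1)
        · rw [if_pos hC, if_pos hC]
          have hiff : a⁻¹ * q = QuotientGroup.mk (tr R g hg s.1.2 u) ↔
              a = q * (QuotientGroup.mk (tr R g hg s.1.2 u)⁻¹ : R.χ.ker ⧸ N) := by
            rw [QuotientGroup.mk_inv]
            generalize (QuotientGroup.mk (tr R g hg s.1.2 u) : R.χ.ker ⧸ N) = k
            constructor
            · intro h
              rw [← h]; group
            · intro h
              rw [h]; group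
          by_cases hb : a = q * (QuotientGroup.mk (tr R g hg s.1.2 u)⁻¹ : R.χ.ker ⧸ N)
          · rw [if_pos hb, if_pos (hiff.2 hb), Int.cast_one, mul_one]
          · rw [if_neg hb, if_neg (fun h => hb (hiff.1 h)), Int.cast_zero, mul_zero]
        · rw [if_neg hC, if_neg hC, Int.cast_zero, mul_zero]
    · rw [if_neg hA, if_neg hA, Int.cast_zero, mul_zero]
  rw [Finset.sum_congr rfl fun a _ => h4 a, Finset.sum_comm]
  apply Finset.sum_congr rfl
  intro u _
  by_cases hA : t.1.1 = s.1.1.erase u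
  · rw [if_pos hA]
    simp only [if_pos hA]
    rw [← Finset.mul_sum, Finset.sum_sub_distrib]
    congr 1
    congr 1
    · by_cases hB : t.1.2 = s.1.2
      · simp only [if_pos hB]
        rw [Finset.sum_ite_eq' Finset.univ q (fun a => v (s, a)), if_pos (Finset.mem_univ _)]
      · simp only [if_neg hB, Finset.sum_const_zero]
    · by_cases hC : t.1.2 = s.1.2 * Pi.mulSingle u (-1)
      · simp only [if_pos hC]
        rw [Finset.sum_ite_eq' Finset.univ _ (fun a => v (s, a)), if_pos (Finset.mem_univ _)]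
      · simp only [if_neg hC, Finset.sum_const_zero]
  · rw [if_neg hA]
    simp only [if_neg hA, Finset.sum_const_zero]

end

/-- RE3 over a commutative ring. -/
theorem re3K (K : Type) [CommRing K] {V : Type} [Fintype V] [DecidableEq V] {adj : V → V → Prop}
    {W : Type} [Group W] (R : RA V adj W)
    (o : V → ℕ) (g : (V → ℤˣ) → W) (hg : ∀ ε, R.χ (g ε) = ε)
    (N : Subgroup R.χ.ker) [N.Normal] [N.FiniteIndex] (h1 : N.map R.χ.ker.subtype ≤ R.χ.ker)
    (h2 : (N.map R.χ.ker.subtype).FiniteIndex) :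
  letI : Fintype (R.χ.ker ⧸ N) := Fintype.ofFinite _
  let X := cosX R (N.map R.χ.ker.subtype) h1 h2
  ∃ Φ : (CubS adj × (R.χ.ker ⧸ N) → K) →ₗ[K] (Finset V → X.X → K), Function.Injective Φ ∧
    (∀ x, x ∈ LinearMap.range Φ ↔ AllCh adj X.ρ x) ∧
    (∀ v k, (∀ s : CubS adj × (R.χ.ker ⧸ N), s.1.1.1.card ≠ k → v s = 0) ↔
      ∀ σ, Φ v σ ≠ 0 → σ.card = k) ∧
    ∀ v, Φ (Matrix.vecMul v ((regM (QuotientGroup.mk' N) (cubD R g hg o)).map
      (Int.castRingHom K))) = bd K o X.X (Φ v) := by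
  letI : Fintype (R.χ.ker ⧸ N) := Fintype.ofFinite _
  intro X
  have rf := raf V adj W R
  let D := RE.YN R g hg N
  let cf : (CubS adj × (R.χ.ker ⧸ N) → K) → CubS adj → D.Q → K := fun v s q => v (s, q)
  let Φ : (CubS adj × (R.χ.ker ⧸ N) → K) →ₗ[K] (Finset V → X.X → K) :=
    { toFun := fun v => RE.phi K rf D (cf v)
      map_add' := fun v v' => RE.phi_add K rf D (cf v) (cf v')
      map_smul' := fun a v => RE.phi_smul K rf D a (cf v) }
  have hρ : ∀ (y : X.X) (v : V), X.ρ v y = D.act y (R.s v) := by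
    rintro ⟨w⟩ v
    rfl
  have hAll : ∀ x : Finset V → X.X → K, AllCh adj X.ρ x ↔ AllCh adj (fun v y => D.act y (R.s v)) x := by
    intro x
    unfold AllCh
    constructor
    · rintro ⟨h, h'⟩
      refine ⟨h, fun σ v hv y => ?_⟩
      exact (congrArg (x σ) (hρ y v)).symm.trans (h' σ v hv y)
    · rintro ⟨h, h'⟩
      refine ⟨h, fun σ v hv y => ?_⟩
      exact (congrArg (x σ) (hρ y v)).trans (h' σ v hv y)
  refine ⟨Φ, ?_, ?_, ?_, ?_⟩
  · intro v v' h
    have := RE.phi_inj K rf D h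
    funext p
    exact congrFun (congrFun this p.1) p.2
  · intro x
    rw [hAll]
    constructor
    · rintro ⟨v, rfl⟩
      exact RE.phi_AllCh K rf D (cf v)
    · intro hx
      exact ⟨fun p => x p.1.1.1 (D.e p.1.1.2 p.2), RE.recon K rf D x hx⟩
  · intro v k
    refine Iff.trans ?_ (RE.phi_deg K rf D (cf v) k)
    constructor
    · intro h s q hs
      exact h (s, q) hs
    · intro h p hp
      exact h p.1 p.2 hp
  · intro v
    refine Eq.trans ?_ (RE.phi_DD K rf D o (cf v))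
    show RE.phi K rf D (cf _) = _
    congr 1
    funext t q
    exact (coeff_vecMul3K K o v t q).trans rfl


section

variable {V : Type} [Fintype V] [DecidableEq V] {adj : V → V → Prop}
  (hs : ∀ u v, adj u v → adj v u) (hi : ∀ v, ¬ adj v v) {W : Type} [Group W] (R : RA V adj W)
  (o : V → ℕ) (ho : Function.Injective o) (g : (V → ℤˣ) → W) (hg : ∀ ε, R.χ (g ε) = ε)
  (N : Subgroup R.χ.ker) [N.Normal] [N.FiniteIndex]
  (h1 : N.map R.χ.ker.subtype ≤ R.χ.ker) (h2 : (N.map R.χ.ker.subtype).FiniteIndex)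

/-- The homology of the cover with group `N` with coefficients in `K` is the homology of the
complex of the set `N \ W`. -/
theorem cubC_cover (K : Type) [CommRing K] (k : ℕ) :
    Nonempty ((((cubC hs hi R o ho g hg).cover N).map (Int.castRingHom K)).Hk k ≃ₗ[K]
      XH K o (cosX R (N.map R.χ.ker.subtype) h1 h2) Set.univ k) := by
  obtain ⟨Φ, Φinj, Φrange, Φdeg, Φbd⟩ := re3K K R o g hg N h1 h2
  exact hk_equiv_XH (((cubC hs hi R o ho g hg).cover N).map (Int.castRingHom K)) _ o Φ Φinj Φrange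
    Φdeg Φbd k

/-- the same over the integers -/
theorem cubC_cover_int (k : ℕ) :
    Nonempty (((cubC hs hi R o ho g hg).cover N).Hk k ≃ₗ[ℤ]
      XH ℤ o (cosX R (N.map R.χ.ker.subtype) h1 h2) Set.univ k) := by
  obtain ⟨Φ, Φinj, Φrange, Φdeg, Φbd⟩ := re3K ℤ R o g hg N h1 h2
  refine hk_equiv_XH ((cubC hs hi R o ho g hg).cover N) _ o Φ Φinj Φrange
    Φdeg (fun v => ?_) k
  refine Eq.trans ?_ (Φbd v)
  have e : (regM (QuotientGroup.mk' N) (cubD R g hg o)).map (Int.castRingHom ℤ) =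
      regM (QuotientGroup.mk' N) (cubD R g hg o) := by
    ext s t
    simp
  exact congrArg (fun M => Φ (Matrix.vecMul v M)) e.symm

/-- Betti numbers -/
theorem cubC_betti (K : Type) [Field K] (k : ℕ) :
    ((cubC hs hi R o ho g hg).cover N).betti K k =
      Module.finrank K (XH K o (cosX R (N.map R.χ.ker.subtype) h1 h2) Set.univ k) := by
  obtain ⟨e⟩ := cubC_cover hs hi R o ho g hg N h1 h2 K k
  exact e.finrank_eq

/-- the order of the torsion subgroup -/
theorem cubC_torsOrd (k : ℕ) :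
    ((cubC hs hi R o ho g hg).cover N).torsOrd k =
      Nat.card (Submodule.torsion ℤ
        (XH ℤ o (cosX R (N.map R.χ.ker.subtype) h1 h2) Set.univ k)) := by
  obtain ⟨e⟩ := cubC_cover_int hs hi R o ho g hg N h1 h2 k
  unfold BCx.torsOrd
  refine Nat.card_congr ?_
  refine (e.toEquiv.subtypeEquiv fun x => ?_)
  show x ∈ Submodule.torsion ℤ _ ↔ e x ∈ Submodule.torsion ℤ _
  rw [Submodule.mem_torsion_iff, Submodule.mem_torsion_iff]
  constructor
  · rintro ⟨a, ha⟩
    refine ⟨a, ?_⟩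
    have := congrArg e ha
    rwa [Submonoid.smul_def, map_smul, map_zero] at this
  · rintro ⟨a, ha⟩
    refine ⟨a, ?_⟩
    apply e.injective
    rw [Submonoid.smul_def, map_smul, map_zero]
    exact ha

end

end Pool.LU
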