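import Pool.Agent.H3.LU.TopR
import Pool.Agent.H3.L2.ESys

/-!
Project LU: orientable manifolds. The homology in the top degree of products.
-/

set_option autoImplicit false

open scoped BigOperators Topology
open Matrix MeasureTheory Filter Pool.H3.L2 Pool.H29.L2

noncomputable section

namespace Pool.LU

/-- The homology in degree `n` with real coefficients of the group `G` (computed by a finite
based free resolution of `ℤ`) is not zero. -/
def HTop (n : ℕ) (G : Type) (iG : Group G) : Prop :=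
  letI := iG
  ∃ C : BCx (GR G), C.IsRes ∧ (C.cover ⊤).betti ℝ n ≠ 0

/-- The closed aspherical manifold `M = E / Γ` of dimension `n` is orientable: its homology in
degree `n` with real coefficients is not zero. -/
def Orient {n : ℕ} (M : AsphericalMfd n) : Prop := HTop n M.Γ M.grp

/-- a cycle and a cocycle with nonzero pairing -/
def Pair (A : BCx ℤ) (n : ℕ) : Prop := ∃ u u' : A.S → ℤ, u ⬝ᵥ u' ≠ 0 ∧ u ᵥ* A.D = 0 ∧
  A.D *ᵥ u' = 0 ∧ (∀ s, A.deg s ≠ n → u s = 0) ∧ ∀ s, A.deg s ≠ n → u' s = 0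

theorem pair_of_betti {A : BCx ℤ} {n : ℕ} (h : A.betti ℝ n ≠ 0) : Pair A n := by
  obtain ⟨u, u', h1, h2, h3, h4, h5⟩ := Pool.H16.L2.exists_free A n
  let i : Fin (A.betti ℝ n) := ⟨0, Nat.pos_of_ne_zero h⟩
  refine ⟨u i, u' i, ?_, h2 i, h3 i, h4 i, h5 i⟩
  rw [h1, if_pos rfl]
  exact one_ne_zero

theorem betti_of_pair {A : BCx ℤ} {n : ℕ} (h : Pair A n) : A.betti ℝ n ≠ 0 := by
  obtain ⟨u, u', h1, h2, h3, h4, h5⟩ := h
  have hz : (fun s => (u s : ℝ)) ∈ (A.map (Int.castRingHom ℝ)).Zk n := by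
    refine ⟨fun s hs => ?_, ?_⟩
    · have := h4 s hs
      show (u s : ℝ) = 0
      rw [this, Int.cast_zero]
    · funext t
      have := congrFun h2 t
      show ∑ s, (u s : ℝ) * ((A.D s t : ℤ) : ℝ) = 0
      have h6 : ∑ s, u s * A.D s t = 0 := this
      exact_mod_cast h6
  have hnb : (fun s => (u s : ℝ)) ∉ (A.map (Int.castRingHom ℝ)).Bk n := by
    rintro ⟨w, -, hw⟩
    have h6 : ∑ t : A.S, (u t : ℝ) * (u' t : ℝ) = 0 := by
      have h7 : ∀ t : A.S, (u t : ℝ) = ∑ s : A.S, w s * ((A.D s t : ℤ) : ℝ) := fun t =>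
        (congrFun hw t).symm
      calc ∑ t : A.S, (u t : ℝ) * (u' t : ℝ)
          = ∑ t : A.S, ∑ s : A.S, w s * (((A.D s t : ℤ) : ℝ) * (u' t : ℝ)) := by
            refine Finset.sum_congr rfl fun t _ => ?_
            rw [h7 t, Finset.sum_mul]
            exact Finset.sum_congr rfl fun s _ => by ring
        _ = ∑ s : A.S, w s * ∑ t : A.S, (((A.D s t : ℤ) : ℝ) * (u' t : ℝ)) := by
            rw [Finset.sum_comm]
            exact Finset.sum_congr rfl fun s _ => by rw [Finset.mul_sum]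
        _ = 0 := by
            refine Finset.sum_eq_zero fun s _ => ?_
            have h8 : ∑ t : A.S, A.D s t * u' t = 0 := congrFun h3 s
            have h9 : ∑ t : A.S, (((A.D s t : ℤ) : ℝ) * (u' t : ℝ)) = 0 := by exact_mod_cast h8
            rw [h9, mul_zero]
    apply h1
    have h7 : ∑ t : A.S, u t * u' t = 0 := by exact_mod_cast h6
    exact h7
  intro h0
  have hfin : Module.finrank ℝ ((A.map (Int.castRingHom ℝ)).Hk n) = 0 := h0
  rw [Module.finrank_eq_zero_iff_of_free] at hfin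
  have h6 : (Submodule.Quotient.mk ⟨_, hz⟩ : (A.map (Int.castRingHom ℝ)).Hk n) = 0 :=
    Subsingleton.elim _ _
  rw [Submodule.Quotient.mk_eq_zero] at h6
  exact hnb h6

theorem Pair.tens {A B : BCx ℤ} {a b : ℕ} (hA : Pair A a) (hB : Pair B b) :
    Pair (A.tens B) (a + b) := by
  obtain ⟨u, u', h1, h2, h3, h4, h5⟩ := hA
  obtain ⟨v, v', g1, g2, g3, g4, g5⟩ := hB
  refine ⟨kr u v, kr u' v', ?_, ?_, ?_, kr_deg _ h4 _ g4 _ rfl, kr_deg _ h5 _ g5 _ rfl⟩
  · rw [kr_dot]
    exact mul_ne_zero h1 g1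
  · rw [kr_vecMul A B a _ h4, h2, g2, kr_zero_left, kr_zero_right, smul_zero, add_zero]
  · rw [mulVec_kr A B a _ h5, h3, g3, kr_zero_left, kr_zero_right, smul_zero, add_zero]

theorem Pair.iso {A B : BCx ℤ} {n : ℕ} (h : Pair A n) (e : A.S ≃ B.S)
    (hdeg : ∀ s, B.deg (e s) = A.deg s) (hD : ∀ s t, B.D (e s) (e t) = A.D s t) : Pair B n := by
  obtain ⟨u, u', h1, h2, h3, h4, h5⟩ := h
  refine ⟨fun s => u (e.symm s), fun s => u' (e.symm s), ?_, ?_, ?_, ?_, ?_⟩
  · rw [iso_dot]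
    exact h1
  · rw [iso_vecMul e hD, h2]
    rfl
  · rw [iso_mulVec e hD, h3]
    rfl
  · intro s hs
    exact h4 _ (fun h => hs (by rw [← e.apply_symm_apply s, hdeg, h]))
  · intro s hs
    exact h5 _ (fun h => hs (by rw [← e.apply_symm_apply s, hdeg, h]))

theorem Pair.cover_congr {G : Type} [Group G] (C : BCx (GR G)) (n : ℕ) (N N' : Subgroup G)
    [N.Normal] [N.FiniteIndex] [N'.Normal] [N'.FiniteIndex] (e : N = N')
    (h : Pair (C.cover N) n) : Pair (C.cover N') n := by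
  subst e
  exact h

theorem HTop.prod {G1 G2 : Type} [i1 : Group G1] [i2 : Group G2] {a b : ℕ} (h1 : HTop a G1 i1)
    (h2 : HTop b G2 i2) : HTop (a + b) (G1 × G2) inferInstance := by
  obtain ⟨C1, r1, g1⟩ := h1
  obtain ⟨C2, r2, g2⟩ := h2
  refine ⟨C1.xtens C2, Pool.H42.L2.isRes_xtens r1 r2, ?_⟩
  have e : ((⊤ : Subgroup G1).prod (⊤ : Subgroup G2)) = ⊤ := Subgroup.top_prod_top
  haveI n1 : ((⊤ : Subgroup G1).prod (⊤ : Subgroup G2)).Normal := by
    rw [e]
    infer_instance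
  haveI n2 : ((⊤ : Subgroup G1).prod (⊤ : Subgroup G2)).FiniteIndex := by
    rw [e]
    infer_instance
  obtain ⟨f, f1, f2⟩ := exists_iso_cover_xtens C1 C2 ⊤ ⊤
  have h3 := ((pair_of_betti g1).tens (pair_of_betti g2)).iso f f1 f2
  exact betti_of_pair (Pair.cover_congr _ _ _ _ e h3)

theorem Orient.prod {n1 n2 n : ℕ} {M1 : AsphericalMfd n1} {M2 : AsphericalMfd n2}
    (h1 : Orient M1) (h2 : Orient M2) (h : n1 + n2 = n) : Orient (M1.prod M2 h) := by
  subst h
  exact HTop.prod h1 h2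

theorem Orient.pow {n : ℕ} {M : AsphericalMfd n} (h : Orient M) (r : ℕ) : Orient (M.pow r) := by
  induction r with
  | zero => exact h
  | succ r ih => exact h.prod ih _

/-- the homology in degree 0 -/
theorem betti_zero_ne {G : Type} [Group G] (C : BCx (GR G)) (hC : C.IsRes) (N : Subgroup G)
    [N.Normal] [N.FiniteIndex] : (C.cover N).betti ℝ 0 ≠ 0 := by
  classical
  obtain ⟨e, e1, e2, ⟨v, e3⟩, -⟩ := hC
  have h1 : ∃ s, e s ≠ 0 := by
    by_contra h
    push Not at h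
    rw [Finset.sum_eq_zero (fun s _ => by rw [h s, mul_zero])] at e3
    exact zero_ne_one e3
  obtain ⟨s0, hs0⟩ := h1
  have hdeg : C.deg s0 = 0 := by
    by_contra h
    exact hs0 (e1 s0 h)
  letI iF : Fintype (G ⧸ N) := Fintype.ofFinite _
  apply betti_of_pair
  let z : (C.cover N).S → ℤ := fun p => if p.1 = s0 ∧ p.2 = 1 then 1 else 0
  refine ⟨z, fun p => e p.1, ?_, ?_, ?_, ?_, ?_⟩
  · have h2 : z ⬝ᵥ (fun p => e p.1) = e s0 := by
      show ∑ p : C.S × (G ⧸ N), z p * e p.1 = e s0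
      rw [Finset.sum_eq_single (s0, 1)]
      · show (if s0 = s0 ∧ (1 : G ⧸ N) = 1 then 1 else 0) * e s0 = e s0
        rw [if_pos ⟨rfl, rfl⟩, one_mul]
      · intro p _ hp
        show (if p.1 = s0 ∧ p.2 = 1 then 1 else 0) * e p.1 = 0
        rw [if_neg, zero_mul]
        rintro ⟨h3, h4⟩
        exact hp (Prod.ext h3 h4)
      · intro h
        exact absurd (Finset.mem_univ _) h
    rw [h2]
    exact hs0
  · funext t
    show ∑ p : (C.cover N).S, z p * (C.cover N).D p t = 0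
    refine Finset.sum_eq_zero fun p _ => ?_
    by_cases h2 : p.1 = s0 ∧ p.2 = 1
    · have h3 : (C.cover N).D p t = 0 := by
        by_contra h4
        have h5 := (C.cover N).deg_D p t h4
        have h6 : (C.cover N).deg p = 0 := by
          show C.deg p.1 = 0
          rw [h2.1, hdeg]
        omega
      rw [h3, mul_zero]
    · show (if p.1 = s0 ∧ p.2 = 1 then 1 else 0) * _ = 0
      rw [if_neg h2, zero_mul]
  · funext p
    have h2 : ∀ (a : GR G) (q : G ⧸ N), ∑ q' : G ⧸ N,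
        (MonoidAlgebra.mapDomain (QuotientGroup.mk' N) a).coeff (q⁻¹ * q') = aug a := by
      intro a q
      have h3 : ∑ q' : G ⧸ N,
        (MonoidAlgebra.mapDomain (QuotientGroup.mk' N) a).coeff (q⁻¹ * q') =
          ∑ q' : G ⧸ N, (MonoidAlgebra.mapDomain (QuotientGroup.mk' N) a).coeff q' :=
        Fintype.sum_equiv (Equiv.mulLeft q⁻¹) _ _ (fun _ => rfl)
      rw [h3]
      show ∑ q' : G ⧸ N, (Finsupp.mapDomain (QuotientGroup.mk' N) a.coeff) q' = aug a
      have h4 := Finsupp.sum_fintype (Finsupp.mapDomain (QuotientGroup.mk' N) a.coeff)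
        (fun _ n => n) (fun _ => rfl)
      rw [← h4, Finsupp.sum_mapDomain_index (fun _ => rfl) (fun _ _ _ => rfl)]
      rfl
    show ∑ t : C.S × (G ⧸ N), regM (QuotientGroup.mk' N) C.D p t * e t.1 = 0
    rw [Fintype.sum_prod_type]
    have h3 : ∀ t : C.S, ∑ q' : G ⧸ N, regM (QuotientGroup.mk' N) C.D p (t, q') * e t =
        aug (C.D p.1 t) * e t := by
      intro t
      rw [← Finset.sum_mul, ← h2 (C.D p.1 t) p.2]
      rfl
    rw [Finset.sum_congr rfl fun t _ => h3 t]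
    exact e2 p.1
  · intro p hp
    show (if p.1 = s0 ∧ p.2 = 1 then 1 else 0) = 0
    rw [if_neg]
    rintro ⟨h2, -⟩
    apply hp
    show C.deg p.1 = 0
    rw [h2, hdeg]
  · intro p hp
    exact e1 p.1 hp

theorem hTop_of_dual {G : Type} [iG : Group G] (C : BCx (GR G)) (hC : C.IsRes) {n : ℕ}
    (h : DualAll ℝ C n) : HTop n G iG := by
  refine ⟨C, hC, ?_⟩
  rw [← (h ⊤).1 0 n (zero_add n)]
  exact betti_zero_ne C hC ⊤

/-- The question Q1 for orientable manifolds. -/
def Q1Or : Prop :=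
  ∀ (k : ℕ) (M : AsphericalMfd (2 * k + 1)), Orient M → Q1At M k

/-- Q1 for orientable manifolds and part Y give the mod `p` Singer conjecture in odd dimensions. -/
theorem fpSingerOr (hQ : Q1Or) (Y : PartR) (hY : Orient Y.Y) {m : ℕ}
    (X : AsphericalMfd (2 * m + 1)) (hX : Orient X)
    (C : BCx (GR X.Γ)) (hC : C.IsRes) (c : ResChain X.Γ) (hR : DualBetti ℝ C c (2 * m + 1))
    (p : ℕ) [Fact p.Prime] (hp : DualBetti (ZMod p) C c (2 * m + 1)) (j : ℕ) :
    Tendsto (fun i => ((C.cover (c.N i)).betti (ZMod p) j : ℝ) / ((c.N i).index : ℝ))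
      atTop (𝓝 0) := by
  choose μ hμ using fun l => exists_spectral Y.C Y.c l
  have hg : (⟨Y.C, Y.c, Y.res⟩ : Dat Y.Y).Good μ :=
    ⟨hμ, fun l => (luck (hμ l) (Y.acyc l)).1⟩
  have hρ := Y.rho μ hg.spec hg.zero
  have hZ : Q1At (X.prod (X.prod Y.Y rfl) rfl) (2 * m + 1 + Y.k) := by
    have h1 : ∀ (n : ℕ) (M : AsphericalMfd n), n = 2 * (2 * m + 1 + Y.k) + 1 → Orient M →
        Q1At M (2 * m + 1 + Y.k) := by
      rintro n M rfl
      exact hQ _ M
    exact h1 _ _ (by ring) (hX.prod (hX.prod hY rfl) rfl)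
  have hP : Q1At (X.pow (2 * m + 2)) ((2 * m + 3) * m + (m + 1)) := by
    have h1 : ∀ (n : ℕ) (M : AsphericalMfd n), n = 2 * ((2 * m + 3) * m + (m + 1)) + 1 →
        Orient M → Q1At M ((2 * m + 3) * m + (m + 1)) := by
      rintro n M rfl
      exact hQ _ M
    exact h1 _ _ (by ring) (hX.pow _)
  exact Dat.modp_growth' (⟨Y.C, Y.c, Y.res⟩ : Dat Y.Y) (hQ _ _ hY) hg hρ (⟨C, c, hC⟩ : Dat X)
    rfl rfl hZ hP hR p hp j

/-- The group version. -/
theorem fpSingerOr_group (hQ : Q1Or) (Y : PartR) (hY : Orient Y.Y) {m : ℕ} {G : Type}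
    [iG : Group G] [Infinite G] (hG : IsMfdGroup (2 * m + 1) G iG) (C : BCx (GR G))
    (hC : C.IsRes) (hR : DualAll ℝ C (2 * m + 1)) (p : ℕ) [Fact p.Prime]
    (hp : DualAll (ZMod p) C (2 * m + 1)) (c : WChain G) (j : ℕ) :
    Tendsto (fun i => ((C.cover (c.N i)).betti (ZMod p) j : ℝ) / ((c.N i).index : ℝ))
      atTop (𝓝 0) := by
  -- the statement for strict chains, as a property of groups
  obtain ⟨M, hM⟩ := hG
  have hor : Orient M := hM (HTop (2 * m + 1)) (hTop_of_dual C hC hR)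
  have key : ∀ (C : BCx (GR G)) (_ : C.IsRes) (_ : DualAll ℝ C (2 * m + 1))
      (_ : DualAll (ZMod p) C (2 * m + 1)) (c : ResChain G),
      Tendsto (fun i => ((C.cover (c.N i)).betti (ZMod p) j : ℝ) / ((c.N i).index : ℝ))
      atTop (𝓝 0) := by
    by_contra hcon
    have h1 := hM (fun H iH => ¬ (letI := iH; ∀ (C : BCx (GR H)) (_ : C.IsRes)
      (_ : DualAll ℝ C (2 * m + 1)) (_ : DualAll (ZMod p) C (2 * m + 1)) (c : ResChain H),
      Tendsto (fun i => ((C.cover (c.N i)).betti (ZMod p) j : ℝ) / ((c.N i).index : ℝ))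
      atTop (𝓝 0))) hcon
    apply h1
    intro C hC h2 h3 c
    exact fpSingerOr hQ Y hY M hor C hC c ⟨fun i => (h2 (c.N i)).1, fun i => (h2 (c.N i)).2⟩ p
      ⟨fun i => (h3 (c.N i)).1, fun i => (h3 (c.N i)).2⟩ j
  classical
  let f : Subgroup G → ℝ := fun N =>
    if h : N.Normal ∧ N.FiniteIndex then
      letI := h.1
      letI := h.2
      ((C.cover N).betti (ZMod p) j : ℝ) / (N.index : ℝ)
    else 0
  have hf : ∀ (N : Subgroup G) [h1 : N.Normal] [h2 : N.FiniteIndex],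
      f N = ((C.cover N).betti (ZMod p) j : ℝ) / (N.index : ℝ) := by
    intro N h1 h2
    exact dif_pos ⟨h1, h2⟩
  have h0 : ∀ N, 0 ≤ f N := by
    intro N
    by_cases h : N.Normal ∧ N.FiniteIndex
    · letI := h.1
      letI := h.2
      rw [hf]
      positivity
    · have : f N = 0 := dif_neg h
      rw [this]
  have h1 := WChain.tendsto f h0 (fun c => by
    refine (key C hC hR hp c).congr fun i => ?_
    rw [hf]) c
  refine h1.congr fun i => ?_
  rw [hf]

end Pool.LU
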