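import Pool.Agent.H99.LU.CStmts
import Pool.Agent.H3.LU.BStmts

/-!
Project LU, part C: the cubical resolution over the group ring of the kernel of `χ`; definitions and
statements of the modules RE1, RE2, RE3.
-/

set_option autoImplicit false
set_option linter.unusedVariables false

open scoped BigOperators Topology
open Filter Pool.H3.L2

noncomputable section

namespace Pool.LU

/-- Indices of the orbits of cubes: a clique `σ` and signs which are `1` on `σ`. The pair `(σ, ε)`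
stands for the cube spanned by `σ` at the vertex `g ε`. -/
def CubS {V : Type} (adj : V → V → Prop) : Type :=
  {p : Finset V × (V → ℤˣ) // Clq adj p.1 ∧ ∀ v ∈ p.1, p.2 v = 1}

instance {V : Type} [Fintype V] [DecidableEq V] (adj : V → V → Prop) : Finite (CubS adj) :=
  Subtype.finite

instance {V : Type} [Fintype V] [DecidableEq V] (adj : V → V → Prop) : Fintype (CubS adj) :=
  Fintype.ofFinite _

instance {V : Type} (adj : V → V → Prop) : DecidableEq (CubS adj) :=
  Classical.decEq _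

section

variable {V : Type} [Fintype V] [DecidableEq V] {adj : V → V → Prop} {W : Type} [Group W]

/-- The element `g ε * s v * (g ε')⁻¹` of the kernel of `χ`, where `ε'` is `ε` with the sign
number `v` changed. -/
def tr (R : RA V adj W) (g : (V → ℤˣ) → W) (hg : ∀ ε, R.χ (g ε) = ε) (ε : V → ℤˣ) (v : V) :
    R.χ.ker :=
  ⟨g ε * R.s v * (g (ε * Pi.mulSingle v (-1)))⁻¹, by
    rw [MonoidHom.mem_ker, map_mul, map_mul, map_inv, hg, hg, R.χ_s, mul_inv_cancel]⟩

/-- The boundary matrix of the cubical complex. -/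
def cubD (R : RA V adj W) (g : (V → ℤˣ) → W) (hg : ∀ ε, R.χ (g ε) = ε) (o : V → ℕ) :
    Matrix (CubS adj) (CubS adj) (GR R.χ.ker) := fun s t =>
  ∑ v ∈ s.1.1, if t.1.1 = s.1.1.erase v then
    (sg o v (s.1.1.erase v)) •
      ((if t.1.2 = s.1.2 then (1 : GR R.χ.ker) else 0) -
       (if t.1.2 = s.1.2 * Pi.mulSingle v (-1) then
          MonoidAlgebra.single (tr R g hg s.1.2 v) (1 : ℤ) else 0))
  else 0

end

/-- The families `x` of functions on `X` indexed by sets of vertices which are supported on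
cliques and antisymmetric. -/
def AllCh {F : Type} [CommRing F] {V X : Type} (adj : V → V → Prop) (ρ : V → X → X)
    (x : Finset V → X → F) : Prop :=
  (∀ σ, x σ ≠ 0 → Clq adj σ) ∧ ∀ σ, ∀ v ∈ σ, ∀ y, x σ (ρ v y) = - x σ y

/-- RE1: exactness of the complex of finitely supported functions on `W` -/
def RE1Stmt : Prop := ∀ (V : Type) [Fintype V] [DecidableEq V] (adj : V → V → Prop),
  (∀ u v, adj u v → adj v u) → (∀ v, ¬ adj v v) → ∀ (W : Type) [Group W] (R : RA V adj W)
  (o : V → ℕ), Function.Injective o → ∀ x : Finset V → W → ℤ,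
  AllCh adj (fun v w => w * R.s v) x → (∀ σ, (Function.support (x σ)).Finite) →
  bd ℤ o W x = 0 → ∑ᶠ w, x ∅ w = 0 →
  ∃ y : Finset V → W → ℤ, AllCh adj (fun v w => w * R.s v) y ∧
    (∀ σ, (Function.support (y σ)).Finite) ∧ bd ℤ o W y = x

/-- RE2: comparison of the matrix `cubD` with the boundary operator on finitely supported functions
on `W` -/
def RE2Stmt : Prop := ∀ (V : Type) [Fintype V] [DecidableEq V] (adj : V → V → Prop),
  (∀ u v, adj u v → adj v u) → (∀ v, ¬ adj v v) → ∀ (W : Type) [Group W] (R : RA V adj W)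
  (o : V → ℕ), Function.Injective o → ∀ (g : (V → ℤˣ) → W) (hg : ∀ ε, R.χ (g ε) = ε),
  ∃ Φ : (CubS adj → GR R.χ.ker) →ₗ[ℤ] (Finset V → W → ℤ), Function.Injective Φ ∧
    (∀ x, x ∈ LinearMap.range Φ ↔ AllCh adj (fun v w => w * R.s v) x ∧
      ∀ σ, (Function.support (x σ)).Finite) ∧
    (∀ v k, (∀ s : CubS adj, s.1.1.card ≠ k → v s = 0) ↔ ∀ σ, Φ v σ ≠ 0 → σ.card = k) ∧
    (∀ v, Φ (Matrix.vecMul v (cubD R g hg o)) = bd ℤ o W (Φ v)) ∧
    ∀ v, (∑ s : CubS adj, if s.1.1 = ∅ then aug (v s) else 0) = ∑ᶠ w, Φ v ∅ w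

/-- RE3: comparison of the complex of a finite cover with the complex of the set `N \ W` -/
def RE3Stmt : Prop := ∀ (V : Type) [Fintype V] [DecidableEq V] (adj : V → V → Prop),
  (∀ u v, adj u v → adj v u) → (∀ v, ¬ adj v v) → ∀ (W : Type) [Group W] (R : RA V adj W)
  (o : V → ℕ), Function.Injective o → ∀ (g : (V → ℤˣ) → W) (hg : ∀ ε, R.χ (g ε) = ε)
  (N : Subgroup R.χ.ker) [N.Normal] [N.FiniteIndex] (h1 : N.map R.χ.ker.subtype ≤ R.χ.ker)
  (h2 : (N.map R.χ.ker.subtype).FiniteIndex) (F : Type) [Field F],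
  letI : Fintype (R.χ.ker ⧸ N) := Fintype.ofFinite _
  let X := cosX R (N.map R.χ.ker.subtype) h1 h2
  ∃ Φ : (CubS adj × (R.χ.ker ⧸ N) → F) →ₗ[F] (Finset V → X.X → F), Function.Injective Φ ∧
    (∀ x, x ∈ LinearMap.range Φ ↔ AllCh adj X.ρ x) ∧
    (∀ v k, (∀ s : CubS adj × (R.χ.ker ⧸ N), s.1.1.1.card ≠ k → v s = 0) ↔
      ∀ σ, Φ v σ ≠ 0 → σ.card = k) ∧
    ∀ v, Φ (Matrix.vecMul v ((regM (QuotientGroup.mk' N) (cubD R g hg o)).map
      (Int.castRingHom F))) = bd F o X.X (Φ v)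

end Pool.LU
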